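import Mathlib

/-!
# Lower bound for `δ_L` in space: definitions

A triangle is a triple `p : Fin 3 → ℂ`; `F1`, `F2` are its two Fourier coefficients and
`B p q = F1 p * conj (F1 q) - conj (F2 p) * F2 q` is the Hermitian form of signature `(1,1)`
(`B p p` is proportional to the signed area).
-/

set_option autoImplicit false
namespace Pool.Agent.Helper63.ML
open Complex Metric
open scoped ComplexConjugate

/-- The primitive cube root of unity `(-1 + i √3) / 2`. -/
noncomputable def om : ℂ := ⟨-1 / 2, Real.sqrt 3 / 2⟩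

/-- First Fourier coefficient of a triangle. -/
noncomputable def F1 (p : Fin 3 → ℂ) : ℂ := (p 0 + conj om * p 1 + om * p 2) / 3

/-- Second Fourier coefficient of a triangle. -/
noncomputable def F2 (p : Fin 3 → ℂ) : ℂ := (p 0 + om * p 1 + conj om * p 2) / 3

/-- The Hermitian form of signature `(1,1)` on triangles. -/
noncomputable def B (p q : Fin 3 → ℂ) : ℂ := F1 p * conj (F1 q) - conj (F2 p) * F2 q

/-- Twice the signed area of the triangle `a b c`. -/
noncomputable def ar (a b c : ℂ) : ℝ := (conj (b - a) * (c - a)).im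

/-- Cyclic relabelling of a triple. -/
def rot {α : Type*} (p : Fin 3 → α) : Fin 3 → α := fun i => p (i + 1)

/-- Exactly one of the numbers `Re a`, `Re (ω a)`, `Re (ω² a)` is positive and the other two are
negative. -/
def Pat (a : ℂ) : Prop :=
  (0 < a.re ∧ (om * a).re < 0 ∧ (conj om * a).re < 0) ∨
  (a.re < 0 ∧ 0 < (om * a).re ∧ (conj om * a).re < 0) ∨
  (a.re < 0 ∧ (om * a).re < 0 ∧ 0 < (conj om * a).re)

/-- The form attached to two families `W`, `W'` of functions. -/
noncomputable def Bf {X : Type*} (W W' : ℂ → X → ℂ) (c : ℂ) (x y : X) : ℂ :=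
  W c x * conj (W c y) - conj (W' c x) * W' c y

/-- `x` maximises `Bf c x x`. -/
def Maxi {X : Type*} (W W' : ℂ → X → ℂ) (c : ℂ) (x : X) : Prop :=
  ∀ y, (Bf W W' c y y).re ≤ (Bf W W' c x x).re

end Pool.Agent.Helper63.ML
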