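import Pool.Agent.Helper63.ML.RealTwo
import Pool.Agent.Helper8.ML.Planar
import Pool.Agent.Helper48.ML.Excess
import Pool.Agent.Helper68.ML.Hex

/-!
# The planar lemma for the constant `1/4`
-/

set_option autoImplicit false
namespace Pool.Agent.Helper63.ML
open Complex Metric MeasureTheory
open scoped ComplexConjugate ENNReal
open Pool.Agent.Helper59.Pack

/-- The hexagonal lattice with the exact determinant (proof of `fary_big`, helper8). -/
theorem hex_exact {Q : Set P2} {p₀ p₁ p₂ : P2} {A : ℝ}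
    (h : MaxTri Q p₀ p₁ p₂ A) {X₀ X₁ X₂ : ℝ} (hmin₀ : ∀ x ∈ Q, -X₀ ≤ area2 x p₁ p₂)
    (hmin₁ : ∀ x ∈ Q, -X₁ ≤ area2 x p₂ p₀) (hmin₂ : ∀ x ∈ Q, -X₂ ≤ area2 x p₀ p₁)
    (X₀A : X₀ ≤ A) (X₁A : X₁ ≤ A) (X₂A : X₂ ≤ A) :
    ∃ t₁ t₂ : P2, 0 < det2 t₁ t₂ ∧
      det2 t₁ t₂ = (3 * A ^ 2 + 2 * A * (X₀ + X₁ + X₂) + (X₀ + X₁ + X₂) ^ 2 -
        2 * (X₀ ^ 2 + X₁ ^ 2 + X₂ ^ 2)) / (4 * A) ∧
      ∀ m n : ℤ, (m ≠ 0 ∨ n ≠ 0) → ∀ x ∈ interior Q, ∀ y ∈ interior Q,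
        x - y ≠ (m : ℝ) • t₁ + (n : ℝ) • t₂ := by
  have hA := h.hA
  have hA0 := h.pos
  -- the three barycentric coordinates
  set l₀ : P2 → ℝ := fun x => area2 x p₁ p₂ with hl₀
  set l₁ : P2 → ℝ := fun x => area2 x p₂ p₀ with hl₁
  set l₂ : P2 → ℝ := fun x => area2 x p₀ p₁ with hl₂
  have hsum : ∀ x, l₀ x + l₁ x + l₂ x = A := by
    intro x
    rw [← hA]
    simp only [hl₀, hl₁, hl₂, area2, det2, Pi.sub_apply]
    ring
  have hc₀ : Continuous l₀ := by simp only [hl₀, area2, det2, Pi.sub_apply]; fun_prop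
  have hc₁ : Continuous l₁ := by simp only [hl₁, area2, det2, Pi.sub_apply]; fun_prop
  have hc₂ : Continuous l₂ := by simp only [hl₂, area2, det2, Pi.sub_apply]; fun_prop
  have u₀ : ∀ x ∈ Q, l₀ x ≤ A := fun x hx => h.max _ hx _ h.m1 _ h.m2
  have u₁ : ∀ x ∈ Q, l₁ x ≤ A := fun x hx => h.max _ hx _ h.m2 _ h.m0
  have u₂ : ∀ x ∈ Q, l₂ x ≤ A := fun x hx => h.max _ hx _ h.m0 _ h.m1
  have l00 : l₀ p₀ = A := hA
  have l01 : l₀ p₁ = 0 := area2_self_left _ _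
  have l02 : l₀ p₂ = 0 := area2_self_right _ _
  have l10 : l₁ p₀ = 0 := area2_self_right _ _
  have l11 : l₁ p₁ = A := by
    simp only [hl₁]; rw [area2_cyc p₀ p₁ p₂]; exact hA
  have l12 : l₁ p₂ = 0 := area2_self_left _ _
  have l20 : l₂ p₀ = 0 := area2_self_left _ _
  have l21 : l₂ p₁ = 0 := area2_self_right _ _
  have l22 : l₂ p₂ = A := by
    simp only [hl₂]; rw [← area2_cyc p₂ p₀ p₁]; exact hA
  have X₀0 : 0 ≤ X₀ := by have := hmin₀ p₁ h.m1; have e := l01; simp only [hl₀] at e; linarith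
  have X₁0 : 0 ≤ X₁ := by have := hmin₁ p₀ h.m0; have e := l10; simp only [hl₁] at e; linarith
  have X₂0 : 0 ≤ X₂ := by have := hmin₂ p₀ h.m0; have e := l20; simp only [hl₂] at e; linarith
  set E₀ := (A + X₁ + X₂ - X₀) / 2 with hE₀
  set E₁ := (A + X₀ + X₂ - X₁) / 2 with hE₁
  set E₂ := (A + X₀ + X₁ - X₂) / 2 with hE₂
  have E₀0 : 0 ≤ E₀ := by rw [hE₀]; linarith
  have E₁0 : 0 ≤ E₁ := by rw [hE₁]; linarith
  have E₂0 : 0 ≤ E₂ := by rw [hE₂]; linarith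
  set t₁ : P2 := (-(E₁ + E₂) / A) • p₀ + (E₂ / A) • p₁ + (E₁ / A) • p₂ with ht₁
  set t₂ : P2 := (E₂ / A) • p₀ + (-(E₂ + E₀) / A) • p₁ + (E₀ / A) • p₂ with ht₂
  have hAne : A ≠ 0 := hA0.ne'
  have hdet : det2 t₁ t₂ = (E₀ * E₁ + E₀ * E₂ + E₁ * E₂) / A := by
    have e : det2 t₁ t₂ = (E₀ * E₁ + E₀ * E₂ + E₁ * E₂) / A ^ 2 * area2 p₀ p₁ p₂ := by
      simp only [ht₁, ht₂, det2, area2, Pi.sub_apply, Pi.add_apply, Pi.smul_apply, smul_eq_mul]
      field_simp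
      ring
    rw [e, hA]
    field_simp
  have hpos : 0 < E₀ * E₁ + E₀ * E₂ + E₁ * E₂ := by
    have e1 : E₁ + E₂ = A + X₀ := by rw [hE₁, hE₂]; ring
    have e2 : E₀ + E₂ = A + X₁ := by rw [hE₀, hE₂]; ring
    have e3 : E₀ + E₁ = A + X₂ := by rw [hE₀, hE₁]; ring
    rcases E₀0.lt_or_eq with h1 | h1
    · have : 0 < E₀ * (E₁ + E₂) := mul_pos h1 (by linarith)
      have h2 : 0 ≤ E₁ * E₂ := mul_nonneg E₁0 E₂0
      linarith
    · rw [← h1] at e2 e3 ⊢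
      have : 0 < E₁ * E₂ := mul_pos (by linarith) (by linarith)
      linarith
  have hmin₀ : ∀ x ∈ Q, -X₀ ≤ l₀ x := hmin₀
  have hmin₁ : ∀ x ∈ Q, -X₁ ≤ l₁ x := hmin₁
  have hmin₂ : ∀ x ∈ Q, -X₂ ≤ l₂ x := hmin₂
  refine ⟨t₁, t₂, ?_, ?_, ?_⟩
  · rw [hdet]
    exact div_pos hpos hA0
  · rw [hdet, hE₀, hE₁, hE₂]
    field_simp
    ring
  · -- displacements
    intro m n hmn x hx y hy hxy
    have disp : ∀ p q : P2, area2 x p q - area2 y p q = det2 (x - y) (p - q) := by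
      intro p q
      simp only [area2, det2, Pi.sub_apply]; ring
    have f₀ : l₀ x - l₀ y = -(m * (E₁ + E₂) - n * E₂) := by
      have h1 : l₀ x - l₀ y = det2 (x - y) (p₁ - p₂) := disp p₁ p₂
      rw [h1, hxy]
      have e : det2 ((m : ℝ) • t₁ + (n : ℝ) • t₂) (p₁ - p₂) =
          -(m * (E₁ + E₂) - n * E₂) / A * area2 p₀ p₁ p₂ := by
        simp only [ht₁, ht₂, det2, area2, Pi.sub_apply, Pi.add_apply, Pi.smul_apply, smul_eq_mul]
        field_simp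
        ring
      rw [e, hA]
      field_simp
    have f₁ : l₁ x - l₁ y = m * E₂ - n * (E₂ + E₀) := by
      have h1 : l₁ x - l₁ y = det2 (x - y) (p₂ - p₀) := disp p₂ p₀
      rw [h1, hxy]
      have e : det2 ((m : ℝ) • t₁ + (n : ℝ) • t₂) (p₂ - p₀) =
          (m * E₂ - n * (E₂ + E₀)) / A * area2 p₀ p₁ p₂ := by
        simp only [ht₁, ht₂, det2, area2, Pi.sub_apply, Pi.add_apply, Pi.smul_apply, smul_eq_mul]
        field_simp
        ring
      rw [e, hA]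
      field_simp
    have f₂ : l₂ x - l₂ y = m * E₁ + n * E₀ := by
      have h3 := hsum x
      have h4 := hsum y
      linarith
    -- strict bounds in the interior
    have str : ∀ (l : P2 → ℝ) (p q d : P2), (∀ z, l z = area2 z p q) → det2 d (p - q) = A →
        (∀ z ∈ Q, l z ≤ A) → ∀ z ∈ interior Q, l z < A := by
      intro l p q d hl hd hC z hz
      refine lt_of_interior (d := (1 / A) • d) ?_ hC hz
      intro w r
      rw [hl, hl]
      have : area2 (w + r • (1 / A) • d) p q = area2 w p q + r / A * det2 d (p - q) := by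
        simp only [area2, det2, Pi.sub_apply, Pi.add_apply, Pi.smul_apply, smul_eq_mul]
        ring
      rw [this, hd, div_mul_cancel₀ _ hAne]
    have s₀ : ∀ z ∈ interior Q, l₀ z < A := str l₀ p₁ p₂ (p₀ - p₁) (fun _ => rfl) (by
      rw [← hA]; simp only [area2, det2, Pi.sub_apply]; ring) u₀
    have s₁ : ∀ z ∈ interior Q, l₁ z < A := str l₁ p₂ p₀ (p₁ - p₂) (fun _ => rfl) (by
      rw [← hA]; simp only [area2, det2, Pi.sub_apply]; ring) u₁
    have s₂ : ∀ z ∈ interior Q, l₂ z < A := str l₂ p₀ p₁ (p₂ - p₀) (fun _ => rfl) (by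
      rw [← hA]; simp only [area2, det2, Pi.sub_apply]; ring) u₂
    have b₀ : ∀ z ∈ interior Q, ∀ w ∈ interior Q, l₀ z - l₀ w < E₁ + E₂ := by
      intro z hz w hw
      have h1 := s₀ z hz
      have h2 := hmin₀ w (interior_subset hw)
      rw [hE₁, hE₂]; linarith
    have b₁ : ∀ z ∈ interior Q, ∀ w ∈ interior Q, l₁ z - l₁ w < E₀ + E₂ := by
      intro z hz w hw
      have h1 := s₁ z hz
      have h2 := hmin₁ w (interior_subset hw)
      rw [hE₀, hE₂]; linarith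
    have b₂ : ∀ z ∈ interior Q, ∀ w ∈ interior Q, l₂ z - l₂ w < E₀ + E₁ := by
      intro z hz w hw
      have h1 := s₂ z hz
      have h2 := hmin₂ w (interior_subset hw)
      rw [hE₀, hE₁]; linarith
    have B₀ := b₀ x hx y hy
    have B₀' := b₀ y hy x hx
    have B₁ := b₁ x hx y hy
    have B₁' := b₁ y hy x hx
    have B₂ := b₂ x hx y hy
    have B₂' := b₂ y hy x hx
    rw [f₀] at B₀
    rw [f₁] at B₁
    rw [f₂] at B₂
    rw [show l₀ y - l₀ x = m * (E₁ + E₂) - n * E₂ by linarith] at B₀'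
    rw [show l₁ y - l₁ x = -(m * E₂ - n * (E₂ + E₀)) by linarith] at B₁'
    rw [show l₂ y - l₂ x = -(m * E₁ + n * E₀) by linarith] at B₂'
    -- case analysis on signs
    have cast_ge : ∀ k : ℤ, 0 < k → (1 : ℝ) ≤ k := fun k hk => by exact_mod_cast hk
    have cast_le : ∀ k : ℤ, k < 0 → (k : ℝ) ≤ -1 := fun k hk => by
      have : k ≤ -1 := by omega
      exact_mod_cast this
    rcases lt_trichotomy m 0 with hm | hm | hm <;> rcases lt_trichotomy n 0 with hn | hn | hn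
    · have h1 := cast_le m hm
      have h2 := cast_le n hn
      have h3 := mul_le_mul_of_nonneg_right h1 E₁0
      have h4 := mul_le_mul_of_nonneg_right h2 E₀0
      linarith
    · have h1 := cast_le m hm
      have h3 := mul_le_mul_of_nonneg_right h1 (add_nonneg E₁0 E₂0)
      rw [hn] at B₀
      push_cast at B₀
      linarith
    · have h1 := cast_le m hm
      have h2 := cast_ge n hn
      have h3 := mul_le_mul_of_nonneg_right h1 (add_nonneg E₁0 E₂0)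
      have h4 := mul_nonneg (show (0 : ℝ) ≤ n by linarith) E₂0
      linarith
    · have h2 := cast_le n hn
      have h3 := mul_le_mul_of_nonneg_right h2 (add_nonneg E₂0 E₀0)
      rw [hm] at B₁
      push_cast at B₁
      linarith
    · rcases hmn with h | h
      · exact h hm
      · exact h hn
    · have h2 := cast_ge n hn
      have h3 := mul_le_mul_of_nonneg_right h2 (add_nonneg E₂0 E₀0)
      rw [hm] at B₁'
      push_cast at B₁'
      linarith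
    · have h1 := cast_ge m hm
      have h2 := cast_le n hn
      have h3 := mul_le_mul_of_nonneg_right h1 (add_nonneg E₁0 E₂0)
      have h4 := mul_nonneg (show (0 : ℝ) ≤ -n by linarith) E₂0
      linarith
    · have h1 := cast_ge m hm
      have h3 := mul_le_mul_of_nonneg_right h1 (add_nonneg E₁0 E₂0)
      rw [hn] at B₀'
      push_cast at B₀'
      linarith
    · have h1 := cast_ge m hm
      have h2 := cast_ge n hn
      have h3 := mul_le_mul_of_nonneg_right h1 E₁0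
      have h4 := mul_le_mul_of_nonneg_right h2 E₀0
      linarith

theorem MaxTri_cyc {Q : Set P2} {p₀ p₁ p₂ : P2} {A : ℝ} (h : MaxTri Q p₀ p₁ p₂ A) :
    MaxTri Q p₁ p₂ p₀ A where
  m0 := h.m1
  m1 := h.m2
  m2 := h.m0
  hA := by rw [area2_cyc]; exact h.hA
  pos := h.pos
  max := h.max

/-- A point of the cap over the side `p₁p₂` and the excess area. -/
theorem excess {Q : Set P2} (hconv : Convex ℝ Q) (hcomp : IsCompact Q) {p₀ p₁ p₂ : P2} {A V : ℝ}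
    (h : MaxTri Q p₀ p₁ p₂ A) (hV0 : 0 ≤ V) (hvol : volume Q ≤ ENNReal.ofReal (A * V / 2))
    {q₀ q₁ q₂ z : P2} (h0 : q₀ ∈ Q) (h1 : q₁ ∈ Q) (h2 : q₂ ∈ Q) (hz : z ∈ Q)
    {y0 y1 y2 g x0 x1 x2 : ℝ} (e0 : area2 q₀ p₁ p₂ = -(A * y0))
    (e1 : area2 q₁ p₂ p₀ = -(A * y1)) (e2 : area2 q₂ p₀ p₁ = -(A * y2))
    (eg : area2 q₀ p₂ p₀ = A * g) (hy0 : 0 < y0) (ex0 : area2 z p₁ p₂ = A * x0)
    (ex1 : area2 z p₂ p₀ = A * x1) (ex2 : area2 z p₀ p₁ = A * x2) (hx0 : x0 ≤ 0) :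
    (1 + y0 - g) * (-x0) - y0 * x2 ≤ V - 1 - (y0 + y1 + y2) ∧
      g * (-x0) - y0 * x1 ≤ V - 1 - (y0 + y1 + y2) := by
  have hA := h.hA
  have hA0 := h.pos
  have hsum : ∀ x, area2 x p₁ p₂ + area2 x p₂ p₀ + area2 x p₀ p₁ = A := by
    intro x
    rw [← hA]
    simp only [area2, det2, Pi.sub_apply]
    ring
  have eb : area2 q₀ p₀ p₁ = A * (1 + y0 - g) := by
    have := hsum q₀
    rw [e0, eg] at this
    linarith
  have hq : area2 q₀ p₁ p₂ < 0 := by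
    rw [e0]
    have := mul_pos hA0 hy0
    linarith
  have hz0 : area2 z p₁ p₂ ≤ 0 := by
    rw [ex0]
    exact mul_nonpos_of_nonneg_of_nonpos hA0.le hx0
  have l01 : area2 p₁ p₁ p₂ = 0 := area2_self_left _ _
  have l02 : area2 p₂ p₁ p₂ = 0 := area2_self_right _ _
  have l11 : area2 p₁ p₂ p₀ = A := by rw [area2_cyc p₀ p₁ p₂]; exact hA
  have l12 : area2 p₂ p₂ p₀ = 0 := area2_self_left _ _
  have l21 : area2 p₁ p₀ p₁ = 0 := area2_self_right _ _
  have l22 : area2 p₂ p₀ p₁ = A := by rw [← area2_cyc p₂ p₀ p₁]; exact hA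
  have hpos : 0 ≤ A * V / 2 := by positivity
  have f1 : area2 z q₀ p₁ = A * ((1 + y0 - g) * (-x0) - y0 * x2) := by
    have hb := bary_det p₀ p₁ p₂ z q₀ p₁
    rw [hA, l01, l11, l21, e0, eg, eb, ex0, ex1, ex2] at hb
    have : A ^ 2 * area2 z q₀ p₁ = A ^ 2 * (A * ((1 + y0 - g) * (-x0) - y0 * x2)) := by
      rw [hb]; ring
    exact mul_left_cancel₀ (by positivity) this
  have f2 : area2 z p₂ q₀ = A * (g * (-x0) - y0 * x1) := by
    have hb := bary_det p₀ p₁ p₂ z p₂ q₀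
    rw [hA, l02, l12, l22, e0, eg, eb, ex0, ex1, ex2] at hb
    have : A ^ 2 * area2 z p₂ q₀ = A ^ 2 * (A * (g * (-x0) - y0 * x1)) := by
      rw [hb]; ring
    exact mul_left_cancel₀ (by positivity) this
  constructor
  · have := (vol_excess₁ hconv hcomp h h0 h1 h2 hz hq hz0).trans hvol
    rw [ENNReal.ofReal_le_ofReal_iff hpos, f1, e0, e1, e2] at this
    have h3 : A * ((1 + y0 - g) * (-x0) - y0 * x2) ≤ A * (V - 1 - (y0 + y1 + y2)) := by linarith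
    exact le_of_mul_le_mul_left h3 hA0
  · have := (vol_excess₂ hconv hcomp h h0 h1 h2 hz hq hz0).trans hvol
    rw [ENNReal.ofReal_le_ofReal_iff hpos, f2, e0, e1, e2] at this
    have h3 : A * (g * (-x0) - y0 * x1) ≤ A * (V - 1 - (y0 + y1 + y2)) := by linarith
    exact le_of_mul_le_mul_left h3 hA0

/-- The condition on three far points of `Q`. -/
theorem far_cond {Q : Set P2} {p₀ p₁ p₂ : P2} {A : ℝ}
    (h : MaxTri Q p₀ p₁ p₂ A) {q₀ q₁ q₂ : P2} (h0 : q₀ ∈ Q) (h1 : q₁ ∈ Q) (h2 : q₂ ∈ Q)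
    {y0 y1 y2 g0 g1 g2 : ℝ} (e0 : area2 q₀ p₁ p₂ = -(A * y0))
    (e1 : area2 q₁ p₂ p₀ = -(A * y1)) (e2 : area2 q₂ p₀ p₁ = -(A * y2))
    (eg0 : area2 q₀ p₂ p₀ = A * g0) (eg1 : area2 q₁ p₀ p₁ = A * g1) (eg2 : area2 q₂ p₁ p₂ = A * g2)
    (n0 : 0 ≤ y0) (n1 : 0 ≤ y1) (n2 : 0 ≤ y2) (v0 : y0 ≤ g0) (v1 : y1 ≤ g1) (v2 : y2 ≤ g2)
    (b0 : g0 ≤ 1) (b1 : g1 ≤ 1) (b2 : g2 ≤ 1) (hs : 1 < y0 + y1 + y2) :
    (y1 + y2) * (1 + y0) ≤ 1 ∨ (y0 + y2) * (1 + y1) ≤ 1 ∨ (y0 + y1) * (1 + y2) ≤ 1 := by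
  by_contra hcon
  push Not at hcon
  obtain ⟨k0, k1, k2⟩ := hcon
  have hA := h.hA
  have hA0 := h.pos
  have hsum : ∀ x, area2 x p₁ p₂ + area2 x p₂ p₀ + area2 x p₀ p₁ = A := by
    intro x
    rw [← hA]
    simp only [area2, det2, Pi.sub_apply]
    ring
  have t0 : area2 q₀ p₀ p₁ = A * (1 + y0 - g0) := by linarith [hsum q₀]
  have t1 : area2 q₁ p₁ p₂ = A * (1 + y1 - g1) := by linarith [hsum q₁]
  have t2 : area2 q₂ p₂ p₀ = A * (1 + y2 - g2) := by linarith [hsum q₂]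
  have hmax := h.max _ h0 _ h1 _ h2
  have hbd' := bary_det p₀ p₁ p₂ q₀ q₁ q₂
  rw [hA, e0, e1, e2, eg0, eg1, eg2, t0, t1, t2] at hbd'
  have hsp : 0 < y0 * y1 + y1 * y2 + y2 * y0 := by
    by_contra hneg
    push Not at hneg
    have p01 := mul_nonneg n0 n1
    have p12 := mul_nonneg n1 n2
    have p20 := mul_nonneg n2 n0
    have z01 : y0 * y1 = 0 := by linarith
    have z12 : y1 * y2 = 0 := by linarith
    have z20 : y2 * y0 = 0 := by linarith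
    rcases mul_eq_zero.1 z01 with h | h
    · rcases mul_eq_zero.1 z12 with h' | h'
      · linarith
      · linarith
    · rcases mul_eq_zero.1 z20 with h' | h'
      · linarith
      · linarith
  have hbox := box_gt v0 v1 v2 b0 b1 b2 hsp k0 k1 k2
  have e2 : A ^ 2 * area2 q₀ q₁ q₂ = A ^ 3 * (-y0 * y1 * y2 + y0 * g1 * (1 + y2 - g2) +
      y1 * (1 + y0 - g0) * g2 + y2 * g0 * (1 + y1 - g1) + g0 * g1 * g2 +
      (1 + y0 - g0) * (1 + y1 - g1) * (1 + y2 - g2)) := by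
    rw [hbd']; ring
  have e3 : A ^ 3 * 1 < A ^ 3 * (-y0 * y1 * y2 + y0 * g1 * (1 + y2 - g2) +
      y1 * (1 + y0 - g0) * g2 + y2 * g0 * (1 + y1 - g1) + g0 * g1 * g2 +
      (1 + y0 - g0) * (1 + y1 - g1) * (1 + y2 - g2)) :=
    mul_lt_mul_of_pos_left hbox (by positivity)
  rw [← e2] at e3
  have e4 : A ^ 2 * A < A ^ 2 * area2 q₀ q₁ q₂ := by
    calc A ^ 2 * A = A ^ 3 * 1 := by ring
      _ < _ := e3
  have e5 := lt_of_mul_lt_mul_left e4 (by positivity)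
  linarith

theorem Vp_le {ε h a b : ℝ} (hε0 : 0 ≤ ε) (hε : ε ≤ 1 / 5) (hh : h ≤ 1 / 2) (hab : a + b = 1 + h)
    (ha : h ≤ a) (hb : b ≤ 1) (h0 : 0 ≤ h) : Vp ε h a b ≤ 6 / 10 := by
  unfold Vp
  apply max_le
  · have h1 : b - a ≤ 1 - h := by linarith
    have h2 : ε * (b - a) ≤ ε * (1 - h) := mul_le_mul_of_nonneg_left h1 hε0
    have h3 : ε * (1 - h) ≤ 1 / 5 * (1 - h) := mul_le_mul_of_nonneg_right hε (by linarith)
    linarith
  · linarith

theorem Up_le {ε h a : ℝ} (hε0 : 0 ≤ ε) (hε : ε ≤ 1 / 5) (h0 : 0 ≤ h) (hh : h ≤ 1 / 2)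
    (ha : a ≤ 1) : Up ε h a ≤ 2 / 10 := by
  unfold Up
  apply max_le (by norm_num)
  have h1 : 0 ≤ (1 - ε) * (1 - a) := mul_nonneg (by linarith) (by linarith)
  have h2 : ε * h ≤ 1 / 5 * (1 / 2) := mul_le_mul hε hh h0 (by norm_num)
  linarith

/-- Bounds for one width. -/
theorem W_bounds {ε h a h' a' b' d : ℝ} (hε0 : 0 ≤ ε) (hε : ε ≤ 1 / 5) (h0 : 1 / 6 ≤ h)
    (h1 : h ≤ 1 / 2) (h0' : 1 / 6 ≤ h') (h1' : h' ≤ 1 / 2) (ha : a ≤ 1)
    (hab : a' + b' = 1 + h') (ha' : h' ≤ a') (hb' : b' ≤ 1) (hd0 : 0 ≤ d) (hd : d ≤ 1 / 100) :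
    1 ≤ (1 + Up ε h a + (1 - ε) * d / h) + (Vp ε h' a' b' + 2 * ε * d / h') ∧
    (1 + Up ε h a + (1 - ε) * d / h) + (Vp ε h' a' b' + 2 * ε * d / h') ≤ 2 := by
  have a1 : 0 ≤ (1 - ε) * d / h := by
    have : 0 ≤ 1 - ε := by linarith
    positivity
  have a2 : 0 ≤ 2 * ε * d / h' := by positivity
  have a3 : 0 ≤ Up ε h a := le_max_left _ _
  have a4 : ε ≤ Vp ε h' a' b' := le_max_right _ _
  have a5 : (1 - ε) * d / h ≤ 6 / 100 := by
    rw [div_le_iff₀ (by linarith)]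
    have : (1 - ε) * d ≤ 1 * (1 / 100) := mul_le_mul (by linarith) hd hd0 (by norm_num)
    linarith
  have a6 : 2 * ε * d / h' ≤ 6 / 100 := by
    rw [div_le_iff₀ (by linarith)]
    have : (2 * ε) * d ≤ 1 * (1 / 100) := mul_le_mul (by linarith) hd hd0 (by norm_num)
    linarith
  have a7 := Up_le hε0 hε (by linarith) h1 ha
  have a8 := Vp_le hε0 hε h1' hab ha' hb' (by linarith)
  constructor <;> linarith

/-- From the total width to the area. -/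
theorem det_to_vol {Q : Set P2} {A V ε T D : ℝ} (hA0 : 0 < A) 
    (hvol : volume Q = ENNReal.ofReal (A * V / 2))
    (hD : D ≤ (A * T) ^ 2 / (12 * A * (1 + 3 * ε ^ 2))) (hT : T ^ 2 ≤ 8 * (1 + 3 * ε ^ 2) * V) :
    ENNReal.ofReal (3 / 4 * D) ≤ volume Q := by
  rw [hvol]
  apply ENNReal.ofReal_le_ofReal
  have he : 0 < 1 + 3 * ε ^ 2 := by positivity
  have h1 : (A * T) ^ 2 / (12 * A * (1 + 3 * ε ^ 2)) = A * (T ^ 2 / (12 * (1 + 3 * ε ^ 2))) := by
    field_simp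
  rw [h1] at hD
  have h2 : T ^ 2 / (12 * (1 + 3 * ε ^ 2)) ≤ 2 / 3 * V := by
    rw [div_le_iff₀ (by positivity)]
    linarith
  have h3 : A * (T ^ 2 / (12 * (1 + 3 * ε ^ 2))) ≤ A * (2 / 3 * V) :=
    mul_le_mul_of_nonneg_left h2 hA0.le
  linarith

/-- The planar lemma. -/
theorem fary_quarter {Q : Set P2} (hconv : Convex ℝ Q) (hcomp : IsCompact Q) {p₀ p₁ p₂ : P2}
    {A : ℝ} (h : MaxTri Q p₀ p₁ p₂ A) (hbig : ENNReal.ofReal (184 / 100 * A / 2) ≤ volume Q) :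
    ∃ t₁ t₂ : P2, 0 < det2 t₁ t₂ ∧ ENNReal.ofReal (3 / 4 * det2 t₁ t₂) ≤ volume Q ∧
      ∀ m n : ℤ, (m ≠ 0 ∨ n ≠ 0) → ∀ x ∈ interior Q, ∀ y ∈ interior Q,
        x - y ≠ (m : ℝ) • t₁ + (n : ℝ) • t₂ := by
  have hA := h.hA
  have hA0 := h.pos
  have hAne : A ≠ 0 := hA0.ne'
  have hQne : Q.Nonempty := ⟨p₀, h.m0⟩
  -- the normalised area
  have hfin : volume Q ≠ ⊤ := hcomp.measure_lt_top.ne
  obtain ⟨V, hVdef⟩ : ∃ V, V = 2 * (volume Q).toReal / A := ⟨_, rfl⟩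
  have hV0 : 0 ≤ V := by rw [hVdef]; positivity
  have hvol : volume Q = ENNReal.ofReal (A * V / 2) := by
    rw [hVdef, show A * (2 * (volume Q).toReal / A) / 2 = (volume Q).toReal by field_simp,
      ENNReal.ofReal_toReal hfin]
  have hAV : 0 ≤ A * V / 2 := by positivity
  have hV1 : 184 / 100 ≤ V := by
    rw [hvol, ENNReal.ofReal_le_ofReal_iff hAV] at hbig
    have : A * (184 / 100) ≤ A * V := by linarith
    exact le_of_mul_le_mul_left this hA0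
  -- normalised coordinates
  have nrm : ∀ x : ℝ, x = A * (x / A) := fun x => by field_simp
  obtain ⟨c0, hc0⟩ : ∃ c : P2 → ℝ, ∀ z, area2 z p₁ p₂ = A * c z :=
    ⟨fun z => area2 z p₁ p₂ / A, fun z => nrm _⟩
  obtain ⟨c1, hc1⟩ : ∃ c : P2 → ℝ, ∀ z, area2 z p₂ p₀ = A * c z :=
    ⟨fun z => area2 z p₂ p₀ / A, fun z => nrm _⟩
  obtain ⟨c2, hc2⟩ : ∃ c : P2 → ℝ, ∀ z, area2 z p₀ p₁ = A * c z :=
    ⟨fun z => area2 z p₀ p₁ / A, fun z => nrm _⟩
  have hsum : ∀ z, c0 z + c1 z + c2 z = 1 := by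
    intro z
    have e : area2 z p₁ p₂ + area2 z p₂ p₀ + area2 z p₀ p₁ = A := by
      rw [← hA]
      simp only [area2, det2, Pi.sub_apply]
      ring
    rw [hc0, hc1, hc2] at e
    have : A * (c0 z + c1 z + c2 z) = A * 1 := by linarith
    exact mul_left_cancel₀ hAne this
  have can : ∀ {x y : ℝ}, A * x ≤ A * y → x ≤ y := fun hxy => le_of_mul_le_mul_left hxy hA0
  have u0 : ∀ z ∈ Q, c0 z ≤ 1 := fun z hz => can (by
    rw [← hc0, mul_one]; exact h.max _ hz _ h.m1 _ h.m2)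
  have u1 : ∀ z ∈ Q, c1 z ≤ 1 := fun z hz => can (by
    rw [← hc1, mul_one]; exact h.max _ hz _ h.m2 _ h.m0)
  have u2 : ∀ z ∈ Q, c2 z ≤ 1 := fun z hz => can (by
    rw [← hc2, mul_one]; exact h.max _ hz _ h.m0 _ h.m1)
  -- the far points
  have far : ∀ p q : P2, ∃ w ∈ Q, ∀ z ∈ Q, area2 w p q ≤ area2 z p q := by
    intro p q
    have hc : Continuous fun x : P2 => area2 x p q := by
      simp only [area2, det2, Pi.sub_apply]; fun_prop
    obtain ⟨w, hw, hmin⟩ := hcomp.exists_isMinOn hQne hc.continuousOn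
    exact ⟨w, hw, fun z hz => hmin hz⟩
  obtain ⟨q₀, m0, min0⟩ := far p₁ p₂
  obtain ⟨q₁, m1, min1⟩ := far p₂ p₀
  obtain ⟨q₂, m2, min2⟩ := far p₀ p₁
  have min0' : ∀ z ∈ Q, c0 q₀ ≤ c0 z := fun z hz => can (by
    rw [← hc0, ← hc0]; exact min0 z hz)
  have min1' : ∀ z ∈ Q, c1 q₁ ≤ c1 z := fun z hz => can (by
    rw [← hc1, ← hc1]; exact min1 z hz)
  have min2' : ∀ z ∈ Q, c2 q₂ ≤ c2 z := fun z hz => can (by
    rw [← hc2, ← hc2]; exact min2 z hz)
  obtain ⟨y0, hy0⟩ : ∃ y, y = -c0 q₀ := ⟨_, rfl⟩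
  obtain ⟨y1, hy1⟩ : ∃ y, y = -c1 q₁ := ⟨_, rfl⟩
  obtain ⟨y2, hy2⟩ : ∃ y, y = -c2 q₂ := ⟨_, rfl⟩
  obtain ⟨g0, hg0⟩ : ∃ y, y = c1 q₀ := ⟨_, rfl⟩
  obtain ⟨g1, hg1⟩ : ∃ y, y = c2 q₁ := ⟨_, rfl⟩
  obtain ⟨g2, hg2⟩ : ∃ y, y = c0 q₂ := ⟨_, rfl⟩
  have lo0 : ∀ z ∈ Q, -y0 ≤ c0 z := fun z hz => by rw [hy0, neg_neg]; exact min0' z hz
  have lo1 : ∀ z ∈ Q, -y1 ≤ c1 z := fun z hz => by rw [hy1, neg_neg]; exact min1' z hz
  have lo2 : ∀ z ∈ Q, -y2 ≤ c2 z := fun z hz => by rw [hy2, neg_neg]; exact min2' z hz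
  have z01 : c0 p₁ = 0 := by
    have : A * c0 p₁ = 0 := by rw [← hc0]; exact area2_self_left _ _
    rcases mul_eq_zero.1 this with h | h
    · exact absurd h hAne
    · exact h
  have z12 : c1 p₂ = 0 := by
    have : A * c1 p₂ = 0 := by rw [← hc1]; exact area2_self_left _ _
    rcases mul_eq_zero.1 this with h | h
    · exact absurd h hAne
    · exact h
  have z20 : c2 p₀ = 0 := by
    have : A * c2 p₀ = 0 := by rw [← hc2]; exact area2_self_left _ _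
    rcases mul_eq_zero.1 this with h | h
    · exact absurd h hAne
    · exact h
  have y0n : 0 ≤ y0 := by have := lo0 p₁ h.m1; rw [z01] at this; linarith
  have y1n : 0 ≤ y1 := by have := lo1 p₂ h.m2; rw [z12] at this; linarith
  have y2n : 0 ≤ y2 := by have := lo2 p₀ h.m0; rw [z20] at this; linarith
  have e0 : area2 q₀ p₁ p₂ = -(A * y0) := by rw [hc0, hy0]; ring
  have e1 : area2 q₁ p₂ p₀ = -(A * y1) := by rw [hc1, hy1]; ring
  have e2 : area2 q₂ p₀ p₁ = -(A * y2) := by rw [hc2, hy2]; ring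
  have eg0 : area2 q₀ p₂ p₀ = A * g0 := by rw [hc1, hg0]
  have eg1 : area2 q₁ p₀ p₁ = A * g1 := by rw [hc2, hg1]
  have eg2 : area2 q₂ p₁ p₂ = A * g2 := by rw [hc0, hg2]
  have g0u : g0 ≤ 1 := by rw [hg0]; exact u1 _ m0
  have g1u : g1 ≤ 1 := by rw [hg1]; exact u2 _ m1
  have g2u : g2 ≤ 1 := by rw [hg2]; exact u0 _ m2
  have g0l : y0 ≤ g0 := by have := hsum q₀; have := u2 _ m0; rw [hy0, hg0]; linarith
  have g1l : y1 ≤ g1 := by have := hsum q₁; have := u0 _ m1; rw [hy1, hg1]; linarith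
  have g2l : y2 ≤ g2 := by have := hsum q₂; have := u1 _ m2; rw [hy2, hg2]; linarith
  have y0u : y0 ≤ 1 := g0l.trans g0u
  have y1u : y1 ≤ 1 := g1l.trans g1u
  have y2u : y2 ≤ 1 := g2l.trans g2u
  have hV2 : 1 + (y0 + y1 + y2) ≤ V := by
    have := vol_ge hconv hcomp h m0 m1 m2
    rw [hvol, ENNReal.ofReal_le_ofReal_iff hAV, e0, e1, e2] at this
    apply can
    linarith
  rcases le_or_gt (9 + 6 * (y0 + y1 + y2) + 3 * (y0 + y1 + y2) ^ 2 -
    6 * (y0 ^ 2 + y1 ^ 2 + y2 ^ 2)) (8 * V) with hf | hf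
  · -- the unrotated hexagon
    obtain ⟨t₁, t₂, hdet0, hdet, hpack⟩ := hex_exact h (X₀ := A * y0) (X₁ := A * y1)
      (X₂ := A * y2) (fun z hz => by
        rw [hc0, ← mul_neg]; exact mul_le_mul_of_nonneg_left (lo0 z hz) hA0.le)
      (fun z hz => by
        rw [hc1, ← mul_neg]; exact mul_le_mul_of_nonneg_left (lo1 z hz) hA0.le)
      (fun z hz => by
        rw [hc2, ← mul_neg]; exact mul_le_mul_of_nonneg_left (lo2 z hz) hA0.le)
      (by have := mul_le_mul_of_nonneg_left y0u hA0.le; linarith)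
      (by have := mul_le_mul_of_nonneg_left y1u hA0.le; linarith)
      (by have := mul_le_mul_of_nonneg_left y2u hA0.le; linarith)
    refine ⟨t₁, t₂, hdet0, ?_, hpack⟩
    rw [hvol]
    apply ENNReal.ofReal_le_ofReal
    have e : det2 t₁ t₂ = A * ((3 + 2 * (y0 + y1 + y2) + (y0 + y1 + y2) ^ 2 -
        2 * (y0 ^ 2 + y1 ^ 2 + y2 ^ 2)) / 4) := by
      rw [hdet]
      field_simp
    rw [e]
    have h1 : A * (9 + 6 * (y0 + y1 + y2) + 3 * (y0 + y1 + y2) ^ 2 -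
      6 * (y0 ^ 2 + y1 ^ 2 + y2 ^ 2)) ≤ A * (8 * V) := mul_le_mul_of_nonneg_left hf hA0.le
    linarith
  · obtain ⟨⟨l0, r0⟩, ⟨l1, r1⟩, ⟨l2, r2⟩, hd1, ε, hε0, hε, hmain⟩ := real_main
      (a0 := g0) (a1 := g1) (a2 := g2) hV1 hV2 hf
      (fun hs => far_cond h m0 m1 m2 e0 e1 e2 eg0 eg1 eg2 y0n y1n y2n g0l g1l g2l g0u g1u g2u hs)
      g0l g0u g1l g1u g2l g2u y0n y1n y2n
    obtain ⟨d, hd⟩ : ∃ d, d = V - 1 - (y0 + y1 + y2) := ⟨_, rfl⟩
    rw [← hd] at hd1 hmain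
    have hd0 : 0 ≤ d := by rw [hd]; linarith
    have p0 : 0 < y0 := by linarith
    have p1 : 0 < y1 := by linarith
    have p2 : 0 < y2 := by linarith
    have E0 : ∀ z ∈ Q, c0 z ≤ 0 → (1 + y0 - g0) * (-c0 z) - y0 * c2 z ≤ d ∧
        g0 * (-c0 z) - y0 * c1 z ≤ d := by
      intro z hz hz0
      rw [hd]
      exact excess hconv hcomp h hV0 hvol.le m0 m1 m2 hz e0 e1 e2 eg0 p0 (hc0 z) (hc1 z) (hc2 z) hz0
    have E1 : ∀ z ∈ Q, c1 z ≤ 0 → (1 + y1 - g1) * (-c1 z) - y1 * c0 z ≤ d ∧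
        g1 * (-c1 z) - y1 * c2 z ≤ d := by
      intro z hz hz0
      have := excess hconv hcomp (MaxTri_cyc h) hV0 hvol.le m1 m2 m0 hz e1 e2 e0 eg1 p1 (hc1 z)
        (hc2 z) (hc0 z) hz0
      rw [hd, show y0 + y1 + y2 = y1 + y2 + y0 by ring]
      exact this
    have E2 : ∀ z ∈ Q, c2 z ≤ 0 → (1 + y2 - g2) * (-c2 z) - y2 * c1 z ≤ d ∧
        g2 * (-c2 z) - y2 * c0 z ≤ d := by
      intro z hz hz0
      have := excess hconv hcomp (MaxTri_cyc (MaxTri_cyc h)) hV0 hvol.le m2 m0 m1 hz e2 e0 e1 eg2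
        p2 (hc2 z) (hc0 z) (hc1 z) hz0
      rw [hd, show y0 + y1 + y2 = y2 + y0 + y1 by ring]
      exact this
    have hε1 : ε ≤ 1 := by linarith
    -- conversion to the unnormalised functionals
    have conv : ∀ {l m n : P2 → ℝ} {c c' c'' : P2 → ℝ} {δ U L : ℝ}, (∀ z, l z = A * c z) →
        (∀ z, m z = A * c' z) → (∀ z, n z = A * c'' z) →
        (∀ z ∈ Q, c z + δ * (c' z - c'' z) ≤ U) → (∀ z ∈ Q, -c z - δ * (c' z - c'' z) ≤ L) →
        ∀ x ∈ Q, ∀ y ∈ Q, (l x + δ * (m x - n x)) - (l y + δ * (m y - n y)) ≤ A * (U + L) := by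
      intro l m n c c' c'' δ U L hl hm hn hU hL x hx y hy
      rw [hl, hl, hm, hm, hn, hn]
      have h1 := mul_le_mul_of_nonneg_left (add_le_add (hU x hx) (hL y hy)) hA0.le
      linarith
    rcases hmain with hT | hT
    · -- positive sign
      have w0 := W_bounds (h := y2) (a := g2) (h' := y0) (a' := g0) (b' := 1 + y0 - g0) hε0 hε
        l2 r2 l0 r0 g2u (by ring) g0l (by linarith) hd0 hd1
      have w1 := W_bounds (h := y0) (a := g0) (h' := y1) (a' := g1) (b' := 1 + y1 - g1) hε0 hε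
        l0 r0 l1 r1 g0u (by ring) g1l (by linarith) hd0 hd1
      have w2 := W_bounds (h := y1) (a := g1) (h' := y2) (a' := g2) (b' := 1 + y2 - g2) hε0 hε
        l1 r1 l2 r2 g1u (by ring) g2l (by linarith) hd0 hd1
      have resc : ∀ {W : ℝ}, 1 ≤ W ∧ W ≤ 2 → A ≤ A * W ∧ A * W ≤ 2 * A := by
        rintro W ⟨h1, h2⟩
        have := mul_le_mul_of_nonneg_left h1 hA0.le
        have := mul_le_mul_of_nonneg_left h2 hA0.le
        constructor <;> linarith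
      obtain ⟨t₁, t₂, hdet0, hdet, hpack⟩ := hex_lattice (Q := Q) hA hA0 ε
        (conv hc0 hc1 hc2
          (fun z hz => ub (h := y2) (a := g2) (b := 1 + y2 - g2) hε0 hε1 p2 hd0
            (hsum z) (u0 z hz) (lo2 z hz) (fun hz0 => (E2 z hz hz0).1) (by ring))
          (fun z hz => lb (h := y0) (a := g0) (b := 1 + y0 - g0) hε0 hε1 p0 hd0
            (hsum z) (u2 z hz) (lo0 z hz) (fun hz0 => (E0 z hz hz0).2) (by ring)))
        (conv hc1 hc2 hc0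
          (fun z hz => ub (h := y0) (a := g0) (b := 1 + y0 - g0) hε0 hε1 p0 hd0
            (by linarith [hsum z]) (u1 z hz) (lo0 z hz) (fun hz0 => (E0 z hz hz0).1) (by ring))
          (fun z hz => lb (h := y1) (a := g1) (b := 1 + y1 - g1) hε0 hε1 p1 hd0
            (by linarith [hsum z]) (u0 z hz) (lo1 z hz) (fun hz0 => (E1 z hz hz0).2) (by ring)))
        (conv hc2 hc0 hc1
          (fun z hz => ub (h := y1) (a := g1) (b := 1 + y1 - g1) hε0 hε1 p1 hd0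
            (by linarith [hsum z]) (u2 z hz) (lo1 z hz) (fun hz0 => (E1 z hz hz0).1) (by ring))
          (fun z hz => lb (h := y2) (a := g2) (b := 1 + y2 - g2) hε0 hε1 p2 hd0
            (by linarith [hsum z]) (u1 z hz) (lo2 z hz) (fun hz0 => (E2 z hz hz0).2) (by ring)))
        (resc w0) (resc w1) (resc w2)
      refine ⟨t₁, t₂, hdet0, ?_, hpack⟩
      refine det_to_vol (ε := ε) hA0 hvol (hdet.trans (le_of_eq ?_)) hT
      congr 1
      unfold Tot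
      ring
    · -- negative sign
      have w0 := W_bounds (h := y1) (a := 1 + y1 - g1) (h' := y0) (a' := 1 + y0 - g0) (b' := g0)
        hε0 hε l1 r1 l0 r0 (by linarith) (by ring) (by linarith) g0u hd0 hd1
      have w1 := W_bounds (h := y2) (a := 1 + y2 - g2) (h' := y1) (a' := 1 + y1 - g1) (b' := g1)
        hε0 hε l2 r2 l1 r1 (by linarith) (by ring) (by linarith) g1u hd0 hd1
      have w2 := W_bounds (h := y0) (a := 1 + y0 - g0) (h' := y2) (a' := 1 + y2 - g2) (b' := g2)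
        hε0 hε l0 r0 l2 r2 (by linarith) (by ring) (by linarith) g2u hd0 hd1
      have resc : ∀ {W : ℝ}, 1 ≤ W ∧ W ≤ 2 → A ≤ A * W ∧ A * W ≤ 2 * A := by
        rintro W ⟨h1, h2⟩
        have := mul_le_mul_of_nonneg_left h1 hA0.le
        have := mul_le_mul_of_nonneg_left h2 hA0.le
        constructor <;> linarith
      have neg1 : ∀ a b c U : ℝ, a + ε * (c - b) ≤ U → a + -ε * (b - c) ≤ U := by
        intro a b c U hU
        have : a + -ε * (b - c) = a + ε * (c - b) := by ring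
        rw [this]; exact hU
      have neg2 : ∀ a b c U : ℝ, -a - ε * (c - b) ≤ U → -a - -ε * (b - c) ≤ U := by
        intro a b c U hU
        have : -a - -ε * (b - c) = -a - ε * (c - b) := by ring
        rw [this]; exact hU
      obtain ⟨t₁, t₂, hdet0, hdet, hpack⟩ := hex_lattice (Q := Q) hA hA0 (-ε)
        (conv hc0 hc1 hc2
          (fun z hz => neg1 _ _ _ _ (ub (h := y1) (a := 1 + y1 - g1) (b := g1) hε0 hε1 p1 hd0
            (by linarith [hsum z]) (u0 z hz) (lo1 z hz) (fun hz0 => (E1 z hz hz0).2) (by ring)))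
          (fun z hz => neg2 _ _ _ _ (lb (h := y0) (a := 1 + y0 - g0) (b := g0) hε0 hε1 p0 hd0
            (by linarith [hsum z]) (u1 z hz) (lo0 z hz) (fun hz0 => (E0 z hz hz0).1) (by ring))))
        (conv hc1 hc2 hc0
          (fun z hz => neg1 _ _ _ _ (ub (h := y2) (a := 1 + y2 - g2) (b := g2) hε0 hε1 p2 hd0
            (by linarith [hsum z]) (u1 z hz) (lo2 z hz) (fun hz0 => (E2 z hz hz0).2) (by ring)))
          (fun z hz => neg2 _ _ _ _ (lb (h := y1) (a := 1 + y1 - g1) (b := g1) hε0 hε1 p1 hd0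
            (by linarith [hsum z]) (u2 z hz) (lo1 z hz) (fun hz0 => (E1 z hz hz0).1) (by ring))))
        (conv hc2 hc0 hc1
          (fun z hz => neg1 _ _ _ _ (ub (h := y0) (a := 1 + y0 - g0) (b := g0) hε0 hε1 p0 hd0
            (by linarith [hsum z]) (u2 z hz) (lo0 z hz) (fun hz0 => (E0 z hz hz0).2) (by ring)))
          (fun z hz => neg2 _ _ _ _ (lb (h := y2) (a := 1 + y2 - g2) (b := g2) hε0 hε1 p2 hd0
            (by linarith [hsum z]) (u0 z hz) (lo2 z hz) (fun hz0 => (E2 z hz hz0).1) (by ring))))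
        (resc w0) (resc w1) (resc w2)
      refine ⟨t₁, t₂, hdet0, ?_, hpack⟩
      refine det_to_vol (ε := ε) hA0 hvol (hdet.trans (le_of_eq ?_)) hT
      have e : (-ε) ^ 2 = ε ^ 2 := by ring
      rw [e]
      congr 1
      unfold Tot
      ring

end Pool.Agent.Helper63.ML
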