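import Pool.Agent.Helper63.ML.Alg
import Pool.Agent.Helper63.ML.Quarter
import Pool.Agent.Helper59.Pack.Star
import Pool.Agent.Helper47.ML.Frame
import Pool.Agent.Helper26.ML.Inv

/-!
# The largest triangles of the projections of a convex body
-/

set_option autoImplicit false
namespace Pool.Agent.Helper63.ML
open Complex Metric MeasureTheory
open scoped ComplexConjugate ENNReal
open Pool.Agent.Helper59.Pack Pool.Agent.Helper69.MD

/-- The point of `ℂ` attached to a point of the plane. -/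
noncomputable def toC (y : P2) : ℂ := (y 0 : ℂ) + (y 1 : ℂ) * I

theorem toC_re (y : P2) : (toC y).re = y 0 := by simp [toC]
theorem toC_im (y : P2) : (toC y).im = y 1 := by simp [toC]

theorem area2_eq_ar (a b c : P2) : area2 a b c = ar (toC a) (toC b) (toC c) := by
  simp only [area2, det2, ar, mul_im, conj_re, conj_im, sub_re, sub_im, toC_re, toC_im,
    Pi.sub_apply, map_sub]
  ring

theorem continuous_hh : Continuous hh := by
  unfold hh
  fun_prop

theorem continuous_LL : Continuous fun p : ℂ × E3 => LL p.1 p.2 := by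
  have h := continuous_hh
  have h0 : Continuous fun p : ℂ × E3 => (hh p.1 : ℂ) :=
    Complex.continuous_ofReal.comp (h.comp continuous_fst)
  have h1 : ∀ i : Fin 3, Continuous fun p : ℂ × E3 => ((p.2 i : ℝ) : ℂ) := fun i =>
    Complex.continuous_ofReal.comp ((PiLp.continuous_apply 2 _ i).comp continuous_snd)
  have h2 := h1 0
  have h3 := h1 1
  have h4 := h1 2
  unfold LL
  fun_prop

/-- The first Fourier coefficient of the projection of a triple of points of `K`. -/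
noncomputable def WW (K : Set E3) (c : ℂ) (x : Fin 3 → K) : ℂ := F1 fun i => LL c (x i)
/-- The second Fourier coefficient of the projection of a triple of points of `K`. -/
noncomputable def WW' (K : Set E3) (c : ℂ) (x : Fin 3 → K) : ℂ := F2 fun i => LL c (x i)

theorem continuous_F1 : Continuous F1 := by
  unfold F1
  fun_prop

theorem continuous_F2 : Continuous F2 := by
  unfold F2
  fun_prop

theorem continuous_tri (K : Set E3) :
    Continuous fun p : ℂ × (Fin 3 → K) => (fun i => LL p.1 (p.2 i) : Fin 3 → ℂ) := by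
  apply continuous_pi
  intro i
  have h1 : Continuous fun p : ℂ × (Fin 3 → K) => ((p.2 i : K) : E3) := by fun_prop
  have h2 : Continuous fun p : ℂ × (Fin 3 → K) => ((p.1, ((p.2 i : K) : E3)) : ℂ × E3) :=
    continuous_fst.prodMk h1
  have h3 := continuous_LL.comp h2
  simp only [Function.comp_def] at h3
  exact h3

theorem continuous_WW (K : Set E3) : Continuous (Function.uncurry (WW K)) := by
  have h : Function.uncurry (WW K) =
      F1 ∘ (fun p : ℂ × (Fin 3 → K) => (fun i => LL p.1 (p.2 i) : Fin 3 → ℂ)) := by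
    funext p
    rfl
  rw [h]
  exact continuous_F1.comp (continuous_tri K)

theorem continuous_WW' (K : Set E3) : Continuous (Function.uncurry (WW' K)) := by
  have h : Function.uncurry (WW' K) =
      F2 ∘ (fun p : ℂ × (Fin 3 → K) => (fun i => LL p.1 (p.2 i) : Fin 3 → ℂ)) := by
    funext p
    rfl
  rw [h]
  exact continuous_F2.comp (continuous_tri K)

theorem LL_circle {c : ℂ} (hc : ‖c‖ = 1) (x : E3) : LL c x = c ^ 2 * LL 1 x := by
  have h1 : hh c = 0 := by simp [hh, hc]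
  have h2 : hh 1 = 0 := by simp [hh]
  simp only [LL, h1, h2]
  push_cast
  ring

theorem Bf_eq (K : Set E3) (c : ℂ) (x y : Fin 3 → K) :
    Bf (WW K) (WW' K) c x y = B (fun i => LL c (x i)) (fun i => LL c (y i)) := rfl

/-- The data of a good projection of `K`. -/
def GoodProj (K : Set E3) : Prop :=
  ∃ g : E3 ≃ₗᵢ[ℝ] E3, ∃ p₀ p₁ p₂ A, MaxTri (proj (g '' K)) p₀ p₁ p₂ A ∧
    ENNReal.ofReal (184 / 100 * A / 2) ≤ volume (proj (g '' K))

theorem body_image {K : Set E3} (hK : IsConvexBody K) (g : E3 ≃ₗᵢ[ℝ] E3) :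
    IsConvexBody (g '' K) where
  convex := hK.convex.linear_image (g.toLinearEquiv : E3 →ₗ[ℝ] E3)
  isCompact := hK.isCompact.image g.continuous
  interior_nonempty := by
    have h : interior (g '' K) = g '' interior K :=
      (g.toHomeomorph.image_interior K).symm
    rw [h]
    exact hK.interior_nonempty.image g

/-- `g` is a frame for the parameter `c`. -/
def Fr (c : ℂ) (g : E3 ≃ₗᵢ[ℝ] E3) : Prop :=
  ∀ x, LL c x = ((g x 0 : ℝ) : ℂ) + ((g x 1 : ℝ) : ℂ) * I

theorem Fr.eq {c : ℂ} {g : E3 ≃ₗᵢ[ℝ] E3} (h : Fr c g) (x : E3) : LL c x = toC (pr (g x)) := by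
  rw [h x]; rfl

theorem Fr.area {c : ℂ} {g : E3 ≃ₗᵢ[ℝ] E3} (h : Fr c g) {K : Set E3} (x : Fin 3 → K) :
    area2 (pr (g (x 0))) (pr (g (x 1))) (pr (g (x 2))) =
      3 * Real.sqrt 3 / 2 * (Bf (WW K) (WW' K) c x x).re := by
  rw [area2_eq_ar, ← h.eq, ← h.eq, ← h.eq, Bf_eq, ← ar_eq]

theorem mem_proj {K : Set E3} (g : E3 ≃ₗᵢ[ℝ] E3) (x : K) : pr (g x) ∈ proj (g '' K) :=
  ⟨g x, ⟨x, x.2, rfl⟩, rfl⟩

theorem exists_tri {K : Set E3} {g : E3 ≃ₗᵢ[ℝ] E3} {a b c : P2} (ha : a ∈ proj (g '' K))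
    (hb : b ∈ proj (g '' K)) (hc : c ∈ proj (g '' K)) :
    ∃ x : Fin 3 → K, pr (g (x 0)) = a ∧ pr (g (x 1)) = b ∧ pr (g (x 2)) = c := by
  obtain ⟨_, ⟨x, hx, rfl⟩, rfl⟩ := ha
  obtain ⟨_, ⟨y, hy, rfl⟩, rfl⟩ := hb
  obtain ⟨_, ⟨z, hz, rfl⟩, rfl⟩ := hc
  exact ⟨![⟨x, hx⟩, ⟨y, hy⟩, ⟨z, hz⟩], rfl, rfl, rfl⟩

theorem r3_pos : 0 < Real.sqrt 3 := Real.sqrt_pos.2 (by norm_num)

theorem maxTri_of {K : Set E3} (hK : IsConvexBody K) {c : ℂ} {g : E3 ≃ₗᵢ[ℝ] E3} (h : Fr c g)
    {x : Fin 3 → K} (hx : Maxi (WW K) (WW' K) c x) :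
    MaxTri (proj (g '' K)) (pr (g (x 0))) (pr (g (x 1))) (pr (g (x 2)))
      (3 * Real.sqrt 3 / 2 * (Bf (WW K) (WW' K) c x x).re) := by
  have h3 := r3_pos
  have hmax : ∀ a ∈ proj (g '' K), ∀ b ∈ proj (g '' K), ∀ d ∈ proj (g '' K),
      area2 a b d ≤ 3 * Real.sqrt 3 / 2 * (Bf (WW K) (WW' K) c x x).re := by
    intro a ha b hb d hd
    obtain ⟨y, rfl, rfl, rfl⟩ := exists_tri ha hb hd
    rw [h.area y]
    exact mul_le_mul_of_nonneg_left (hx y) (by positivity)
  refine ⟨mem_proj g _, mem_proj g _, mem_proj g _, h.area x, ?_, hmax⟩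
  have hK' := body_image hK g
  obtain ⟨p₀, p₁, p₂, A, hA⟩ := exists_maxTri (proj_compact hK') (proj_interior hK')
  have := hmax _ hA.m0 _ hA.m1 _ hA.m2
  rw [hA.hA] at this
  exact lt_of_lt_of_le hA.pos this

theorem Bf_pos {K : Set E3} (hK : IsConvexBody K) {c : ℂ} {g : E3 ≃ₗᵢ[ℝ] E3} (h : Fr c g)
    {x : Fin 3 → K} (hx : Maxi (WW K) (WW' K) c x) : 0 < (Bf (WW K) (WW' K) c x x).re := by
  have h1 := (maxTri_of hK h hx).pos
  have h3 := r3_pos
  by_contra hcon
  push Not at hcon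
  have : 3 * Real.sqrt 3 / 2 * (Bf (WW K) (WW' K) c x x).re ≤ 0 :=
    mul_nonpos_of_nonneg_of_nonpos (by positivity) hcon
  linarith

theorem Bf_le {K : Set E3} (hK : IsConvexBody K) {c : ℂ} {g : E3 ≃ₗᵢ[ℝ] E3} (h : Fr c g)
    {x : Fin 3 → K} (hx : Maxi (WW K) (WW' K) c x) (q : Fin 3 → K) :
    (Bf (WW K) (WW' K) c x q).re ≤ (Bf (WW K) (WW' K) c x x).re := by
  have hm := maxTri_of hK h hx
  have h3 := r3_pos
  have t := trace0 (fun i => LL c (x i)) (fun i => LL c (q i))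
  simp only [h.eq, ← area2_eq_ar] at t
  have e := h.area x
  have e1 := hm.max _ (mem_proj g (q 0)) _ hm.m1 _ hm.m2
  have e2 := hm.max _ (mem_proj g (q 1)) _ hm.m2 _ hm.m0
  have e3 := hm.max _ (mem_proj g (q 2)) _ hm.m0 _ hm.m1
  simp only [Bf_eq, h.eq] at *
  nlinarith

theorem Bf_gt {K : Set E3} (hK : IsConvexBody K) {c : ℂ} {g : E3 ≃ₗᵢ[ℝ] E3} (h : Fr c g)
    {x : Fin 3 → K} (hx : Maxi (WW K) (WW' K) c x) (q : Fin 3 → K)
    (hsmall : volume (proj (g '' K)) < ENNReal.ofReal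
      (184 / 100 * (3 * Real.sqrt 3 / 2 * (Bf (WW K) (WW' K) c x x).re) / 2)) :
    -(23 / 25) * (Bf (WW K) (WW' K) c x x).re < (Bf (WW K) (WW' K) c x q).re := by
  have hK' := body_image hK g
  have hm := maxTri_of hK h hx
  have h3 := r3_pos
  have t := trace0 (fun i => LL c (x i)) (fun i => LL c (q i))
  simp only [h.eq, ← area2_eq_ar] at t
  have e := h.area x
  have v := vol_ge (proj_convex hK') (proj_compact hK') hm (mem_proj g (q 0)) (mem_proj g (q 1))
    (mem_proj g (q 2))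
  have v2 := lt_of_le_of_lt v hsmall
  rw [ENNReal.ofReal_lt_ofReal_iff (by
    have := hm.pos
    positivity)] at v2
  simp only [Bf_eq, h.eq] at *
  set T := (B (fun i => toC (pr (g ↑(x i)))) fun i => toC (pr (g ↑(x i)))).re with hT
  set S := (B (fun i => toC (pr (g ↑(x i)))) fun i => toC (pr (g ↑(q i)))).re with hS
  have e6 : Real.sqrt 3 * (-(23 / 25) * T) < Real.sqrt 3 * S := by linarith
  exact lt_of_mul_lt_mul_left e6 h3.le

end Pool.Agent.Helper63.ML
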