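import Pool.Agent.Helper63.ML.GeoQ
import Pool.Agent.Helper47.ML.TopCan
import Pool.Agent.Helper97.ML.PatC

/-!
# Existence of a good projection, and the lower bound `1/4` for `δ_L`
-/

set_option autoImplicit false
namespace Pool.Agent.Helper63.ML
open Complex Metric MeasureTheory
open scoped ComplexConjugate ENNReal
open Pool.Agent.Helper59.Pack Pool.Agent.Helper69.MD

theorem WW_rot (K : Set E3) (c : ℂ) (x : Fin 3 → K) : WW K c (rot x) = om * WW K c x :=
  F1_rot fun i => LL c (x i)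

theorem WW'_rot (K : Set E3) (c : ℂ) (x : Fin 3 → K) : WW' K c (rot x) = conj om * WW' K c x :=
  F2_rot fun i => LL c (x i)

theorem Bf_rot (K : Set E3) (c : ℂ) (x y : Fin 3 → K) :
    Bf (WW K) (WW' K) c x (rot y) = conj om * Bf (WW K) (WW' K) c x y := by
  simp only [Bf, WW_rot, WW'_rot, map_mul]
  ring

theorem Bf_rot2 (K : Set E3) (c : ℂ) (x y : Fin 3 → K) :
    Bf (WW K) (WW' K) c x (rot (rot y)) = om * Bf (WW K) (WW' K) c x y := by
  rw [Bf_rot, Bf_rot, ← mul_assoc, conj_om_sq]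

theorem re_smul (t : ℝ) (a : ℂ) : ((t : ℂ) * a).re = t * a.re := by simp

theorem can_smul {t : ℝ} (ht : 0 < t) {a : ℂ} (h : Can a) : Can ((t : ℂ) * a) := by
  have e1 : (om * ((t : ℂ) * a)).re = t * (om * a).re := by
    rw [mul_left_comm, re_smul]
  have e2 : (conj om * ((t : ℂ) * a)).re = t * (conj om * a).re := by
    rw [mul_left_comm, re_smul]
  unfold Can
  rw [e1, e2, re_smul]
  exact ⟨mul_lt_mul_of_pos_left h.1 ht, mul_lt_mul_of_pos_left h.2 ht⟩

theorem patC_smul {t : ℝ} (ht : 0 < t) {a : ℂ} (h : PatC a) : PatC ((t : ℂ) * a) := by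
  unfold PatC
  rw [mul_left_comm om, mul_left_comm (conj om)]
  rcases h with h | h | h
  · exact Or.inl (can_smul ht h)
  · exact Or.inr (Or.inl (can_smul ht h))
  · exact Or.inr (Or.inr (can_smul ht h))

theorem maxi_eq {K : Set E3} {c : ℂ} {x y : Fin 3 → K} (hx : Maxi (WW K) (WW' K) c x)
    (hy : Maxi (WW K) (WW' K) c y) :
    (Bf (WW K) (WW' K) c y y).re = (Bf (WW K) (WW' K) c x x).re :=
  le_antisymm (hx y) (hy x)

/-- The facts about a pair of maximal triangles. -/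
theorem pair_facts {K : Set E3} (hK : IsConvexBody K) {c : ℂ} {g : E3 ≃ₗᵢ[ℝ] E3} (h : Fr c g)
    {x y : Fin 3 → K} (hx : Maxi (WW K) (WW' K) c x) (hy : Maxi (WW K) (WW' K) c y)
    (hsmall : volume (proj (g '' K)) < ENNReal.ofReal
      (184 / 100 * (3 * Real.sqrt 3 / 2 * (Bf (WW K) (WW' K) c x x).re) / 2))
    {T : ℝ} (hT : T = (Bf (WW K) (WW' K) c x x).re) {a : ℂ}
    (ha : a = ((T⁻¹ : ℝ) : ℂ) * Bf (WW K) (WW' K) c x y) :
    PatC a ∧ a.re ≤ 1 ∧ (om * a).re ≤ 1 ∧ (conj om * a).re ≤ 1 ∧ 1 ≤ normSq a ∧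
      -(23 / 25) < a.re ∧ -(23 / 25) < (om * a).re ∧ -(23 / 25) < (conj om * a).re := by
  have hT0 : 0 < T := by rw [hT]; exact Bf_pos hK h hx
  have e0 : a.re = T⁻¹ * (Bf (WW K) (WW' K) c x y).re := by rw [ha, re_smul]
  have e1 : (om * a).re = T⁻¹ * (Bf (WW K) (WW' K) c x (rot (rot y))).re := by
    rw [ha, mul_left_comm, re_smul, Bf_rot2]
  have e2 : (conj om * a).re = T⁻¹ * (Bf (WW K) (WW' K) c x (rot y)).re := by
    rw [ha, mul_left_comm, re_smul, Bf_rot]
  have hi : 0 < T⁻¹ := inv_pos.2 hT0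
  have hiT : T⁻¹ * T = 1 := inv_mul_cancel₀ hT0.ne'
  have le : ∀ q : Fin 3 → K, T⁻¹ * (Bf (WW K) (WW' K) c x q).re ≤ 1 := by
    intro q
    have h1 := Bf_le hK h hx q
    rw [← hT] at h1
    calc T⁻¹ * (Bf (WW K) (WW' K) c x q).re ≤ T⁻¹ * T := by gcongr
      _ = 1 := hiT
  have gt : ∀ q : Fin 3 → K, -(23 / 25) < T⁻¹ * (Bf (WW K) (WW' K) c x q).re := by
    intro q
    have h1 := Bf_gt hK h hx q hsmall
    rw [← hT] at h1
    calc -(23 / 25) = T⁻¹ * (-(23 / 25) * T) := by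
          rw [mul_left_comm, hiT, mul_one]
      _ < _ := mul_lt_mul_of_pos_left h1 hi
  have hn : 1 ≤ normSq a := by
    have h1 := rev_cs (fun i => LL c (x i)) (fun i => LL c (y i)) (Bf_pos hK h hx).le
      (Bf_pos hK h hy).le
    rw [← Bf_eq, ← Bf_eq, ← Bf_eq, maxi_eq hx hy, ← hT] at h1
    rw [ha, normSq_mul, normSq_ofReal]
    calc (1 : ℝ) = T⁻¹ * T⁻¹ * (T * T) := by
          rw [mul_mul_mul_comm, hiT, mul_one]
      _ ≤ T⁻¹ * T⁻¹ * normSq (Bf (WW K) (WW' K) c x y) := by gcongr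
  have g0 : -(23 / 25) < a.re := by rw [e0]; exact gt _
  have g1 : -(23 / 25) < (om * a).re := by rw [e1]; exact gt _
  have g2 : -(23 / 25) < (conj om * a).re := by rw [e2]; exact gt _
  refine ⟨patC_of hn g0 g1 g2, ?_, ?_, ?_, hn, g0, g1, g2⟩
  · rw [e0]; exact le _
  · rw [e1]; exact le _
  · rw [e2]; exact le _

theorem exists_good {K : Set E3} (hK : IsConvexBody K) : GoodProj K := by
  by_contra hcon
  have small : ∀ c g, Fr c g → ∀ x, Maxi (WW K) (WW' K) c x →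
      volume (proj (g '' K)) < ENNReal.ofReal
        (184 / 100 * (3 * Real.sqrt 3 / 2 * (Bf (WW K) (WW' K) c x x).re) / 2) := by
    intro c g h x hx
    by_contra hn
    exact hcon ⟨g, _, _, _, _, maxTri_of hK h hx, not_lt.1 hn⟩
  haveI : CompactSpace K := isCompact_iff_compactSpace.1 hK.isCompact
  haveI : Nonempty K := by
    obtain ⟨z, hz⟩ := hK.interior_nonempty
    exact ⟨⟨z, interior_subset hz⟩⟩
  refine top_main_can (X := Fin 3 → K) (fun x => rot x) ?_ ?_ (WW K) (WW' K) (continuous_WW K)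
    (continuous_WW' K) (WW_rot K) (WW'_rot K) ?_ ?_ ?_ ?_
  · exact continuous_pi fun i => continuous_apply (i + 1)
  · intro x
    funext i
    simp only [rot]
    congr 1
    fin_cases i <;> rfl
  · intro c x hc
    simp only [WW, F1, LL_circle hc]
    ring
  · intro c x hc
    simp only [WW', F2, LL_circle hc]
    ring
  · intro c hc x y hx hy
    obtain ⟨g, h⟩ := exists_frame hc
    have h : Fr c g := h
    have hT0 := Bf_pos hK h hx
    obtain ⟨h1, -⟩ := pair_facts hK h hx hy (small c g h x hx) rfl rfl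
    have := patC_smul hT0 h1
    rwa [← mul_assoc, ← ofReal_mul, mul_inv_cancel₀ hT0.ne', ofReal_one, one_mul] at this
  · intro c hc x y z hx hy hz hxy hyz
    obtain ⟨g, h⟩ := exists_frame hc
    have h : Fr c g := h
    set T := (Bf (WW K) (WW' K) c x x).re with hT
    have hT0 : 0 < T := Bf_pos hK h hx
    have hTy : T = (Bf (WW K) (WW' K) c y y).re := (maxi_eq hx hy).symm
    have hTz : T = (Bf (WW K) (WW' K) c z z).re := (maxi_eq hx hz).symm
    obtain ⟨a1, a2, -, -, a5, a6, a7, a8⟩ := pair_facts hK h hx hy (small c g h x hx) hT rfl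
    obtain ⟨b1, b2, -, -, b5, b6, b7, b8⟩ := pair_facts hK h hy hz (small c g h y hy) hTy rfl
    obtain ⟨c1, c2, c3, c4, c5, c6, c7, c8⟩ := pair_facts hK h hx hz (small c g h x hx) hT rfl
    have hi : 0 < T⁻¹ := inv_pos.2 hT0
    have hiT : T⁻¹ * T = 1 := inv_mul_cancel₀ hT0.ne'
    have hg := gram (fun i => LL c (x i)) (fun i => LL c (y i)) (fun i => LL c (z i))
    simp only [← Bf_eq] at hg
    rw [← hT, ← hTy, ← hTz] at hg
    have key := transC_of (can_smul hi hxy) (can_smul hi hyz) c1 a2 b2 c2 c3 c4 a7 a8 b7 b8 c6 c7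
      c8 a5 b5 c5 ?_
    · have := can_smul hT0 key
      rwa [← mul_assoc, ← ofReal_mul, mul_inv_cancel₀ hT0.ne', ofReal_one, one_mul] at this
    · -- Gram identity
      rw [normSq_mul, normSq_mul, normSq_mul, normSq_ofReal]
      have e1 : (((T⁻¹ : ℝ) : ℂ) * Bf (WW K) (WW' K) c x y *
          (((T⁻¹ : ℝ) : ℂ) * Bf (WW K) (WW' K) c y z) *
          conj (((T⁻¹ : ℝ) : ℂ) * Bf (WW K) (WW' K) c x z)) =
          ((T⁻¹ * T⁻¹ * T⁻¹ : ℝ) : ℂ) * (Bf (WW K) (WW' K) c x y * Bf (WW K) (WW' K) c y z *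
            conj (Bf (WW K) (WW' K) c x z)) := by
        rw [map_mul, conj_ofReal]
        push_cast
        ring
      rw [e1, re_smul]
      set u := (Bf (WW K) (WW' K) c x y * Bf (WW K) (WW' K) c y z *
            conj (Bf (WW K) (WW' K) c x z)).re
      set n1 := normSq (Bf (WW K) (WW' K) c x y)
      set n2 := normSq (Bf (WW K) (WW' K) c y z)
      set n3 := normSq (Bf (WW K) (WW' K) c x z)
      have e2 : T⁻¹ * T⁻¹ * T⁻¹ * (T * T * T + 2 * u) =
          T⁻¹ * T⁻¹ * T⁻¹ * (T * n2 + T * n3 + T * n1) := by rw [hg]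
      have e3 : T⁻¹ * T⁻¹ * T⁻¹ * (T * T * T) = 1 := by
        have : T⁻¹ * T⁻¹ * T⁻¹ * (T * T * T) = (T⁻¹ * T) * (T⁻¹ * T) * (T⁻¹ * T) := by ring
        rw [this, hiT]; norm_num
      have e4 : ∀ n : ℝ, T⁻¹ * T⁻¹ * T⁻¹ * (T * n) = T⁻¹ * T⁻¹ * n := by
        intro n
        have : T⁻¹ * T⁻¹ * T⁻¹ * (T * n) = T⁻¹ * T⁻¹ * (T⁻¹ * T) * n := by ring
        rw [this, hiT, mul_one]
      rw [mul_add, mul_add, mul_add, e3, e4, e4, e4] at e2
      linarith

/-- Every convex body in space has lattice packing density at least `1/4`. -/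
theorem deltaL_lower {K : Set E3} (hK : IsConvexBody K) :
    ENNReal.ofReal (1 / 4) ≤ deltaL K := by
  obtain ⟨g, p₀, p₁, p₂, A, hm, hbig⟩ := exists_good hK
  rw [← deltaL_image g K]
  have hK' := body_image hK g
  obtain ⟨c, hc0, hmax⟩ := exists_max hK'
  set M := len (g '' K) c with hM
  set a := (volume (proj (g '' K))).toReal with ha
  have ha0 : 0 < a := proj_pos hK'
  obtain ⟨t₁, t₂, hdet, hle, hpack⟩ := fary_quarter (proj_convex hK') (proj_compact hK') hm hbig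
  have hfin : volume (proj (g '' K)) ≠ ⊤ := (proj_compact hK').measure_lt_top.ne
  have hle' : 3 / 4 * det2 t₁ t₂ ≤ a := by
    rw [ENNReal.ofReal_le_iff_le_toReal hfin] at hle
    exact hle
  have hpack' : PlanarPacking (g '' K) t₁ t₂ := by
    intro m n hmn x hx y hy
    exact hpack m n hmn _ (pr_interior hx) _ (pr_interior hy)
  let d : LatData := ⟨t₁, t₂, 0, 0, M, hdet, hc0⟩
  refine le_trans ?_ (deltaL_ge hK' d hpack' hmax)
  change _ ≤ volume (g '' K) / ENNReal.ofReal (M * det2 t₁ t₂)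
  have hHD : 0 < M * det2 t₁ t₂ := mul_pos hc0 hdet
  rw [ENNReal.le_div_iff_mul_le (Or.inl (ENNReal.ofReal_pos.2 hHD).ne')
    (Or.inl ENNReal.ofReal_ne_top), ← ENNReal.ofReal_mul (by norm_num)]
  have h1 := kappa_ge hK' hM.symm hc0
  rw [le_div_iff₀ hc0] at h1
  rw [← ENNReal.ofReal_toReal hK'.isCompact.measure_lt_top.ne]
  apply ENNReal.ofReal_le_ofReal
  rw [← ha] at h1
  calc 1 / 4 * (M * det2 t₁ t₂)
      = 1 / 3 * (3 / 4 * det2 t₁ t₂) * M := by ring
    _ ≤ 1 / 3 * a * M := by gcongr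
    _ ≤ _ := h1

end Pool.Agent.Helper63.ML
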