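import Pool.Agent.Helper63.ML.Defs

/-!
# Lower bound `1/4`: the sharper pattern
-/

set_option autoImplicit false
namespace Pool.Agent.Helper63.ML
open Complex Metric
open scoped ComplexConjugate

/-- `Re a` is strictly larger than `Re (ω a)` and `Re (ω² a)`. -/
def Can (a : ℂ) : Prop := (om * a).re < a.re ∧ (conj om * a).re < a.re

/-- One of the numbers `Re a`, `Re (ω a)`, `Re (ω² a)` is strictly larger than the two others. -/
def PatC (a : ℂ) : Prop := Can a ∨ Can (om * a) ∨ Can (conj om * a)

end Pool.Agent.Helper63.ML
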