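import Pool.Agent.Helper63.ML.Defs

/-!
# Elementary algebra of the Hermitian form on triangles
-/

set_option autoImplicit false
namespace Pool.Agent.Helper63.ML
open Complex
open scoped ComplexConjugate

theorem om_sq : om * om = conj om := by
  have h33 : Real.sqrt 3 * Real.sqrt 3 = 3 := Real.mul_self_sqrt (by norm_num)
  apply Complex.ext
  · simp only [om, mul_re, conj_re]
    nlinarith
  · simp only [om, mul_im, conj_im]
    ring

theorem conj_om_sq : conj om * conj om = om := by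
  rw [← map_mul, om_sq, conj_conj]

theorem om_conj_om : om * conj om = 1 := by
  have h33 : Real.sqrt 3 * Real.sqrt 3 = 3 := Real.mul_self_sqrt (by norm_num)
  apply Complex.ext
  · simp only [om, mul_re, conj_re, conj_im, one_re]
    nlinarith
  · simp only [om, mul_im, conj_im, conj_re, one_im]
    ring

theorem F1_rot (p : Fin 3 → ℂ) : F1 (rot p) = om * F1 p := by
  have e : F1 (rot p) = (p 1 + conj om * p 2 + om * p 0) / 3 := rfl
  rw [e, F1]
  have h1 := om_sq
  have h2 := om_conj_om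
  linear_combination (-(p 1) / 3) * h2 - (p 2 / 3) * h1

theorem F2_rot (p : Fin 3 → ℂ) : F2 (rot p) = conj om * F2 p := by
  have e : F2 (rot p) = (p 1 + om * p 2 + conj om * p 0) / 3 := rfl
  rw [e, F2]
  have h1 := conj_om_sq
  have h2 := om_conj_om
  linear_combination (-(p 1) / 3) * h2 - (p 2 / 3) * h1

theorem F1_re (p : Fin 3 → ℂ) : (F1 p).re = ((p 0).re - (p 1).re / 2 + Real.sqrt 3 / 2 * (p 1).im -
    (p 2).re / 2 - Real.sqrt 3 / 2 * (p 2).im) / 3 := by
  have e : F1 p = ((1 / 3 : ℝ) : ℂ) * (p 0 + conj om * p 1 + om * p 2) := by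
    rw [F1]; push_cast; ring
  rw [e, re_ofReal_mul]
  simp only [om, add_re, mul_re, conj_re, conj_im]
  ring

theorem F1_im (p : Fin 3 → ℂ) : (F1 p).im = ((p 0).im - (p 1).im / 2 - Real.sqrt 3 / 2 * (p 1).re -
    (p 2).im / 2 + Real.sqrt 3 / 2 * (p 2).re) / 3 := by
  have e : F1 p = ((1 / 3 : ℝ) : ℂ) * (p 0 + conj om * p 1 + om * p 2) := by
    rw [F1]; push_cast; ring
  rw [e, im_ofReal_mul]
  simp only [om, add_im, mul_im, conj_re, conj_im]
  ring

theorem F2_re (p : Fin 3 → ℂ) : (F2 p).re = ((p 0).re - (p 1).re / 2 - Real.sqrt 3 / 2 * (p 1).im -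
    (p 2).re / 2 + Real.sqrt 3 / 2 * (p 2).im) / 3 := by
  have e : F2 p = ((1 / 3 : ℝ) : ℂ) * (p 0 + om * p 1 + conj om * p 2) := by
    rw [F2]; push_cast; ring
  rw [e, re_ofReal_mul]
  simp only [om, add_re, mul_re, conj_re, conj_im]
  ring

theorem F2_im (p : Fin 3 → ℂ) : (F2 p).im = ((p 0).im - (p 1).im / 2 + Real.sqrt 3 / 2 * (p 1).re -
    (p 2).im / 2 - Real.sqrt 3 / 2 * (p 2).re) / 3 := by
  have e : F2 p = ((1 / 3 : ℝ) : ℂ) * (p 0 + om * p 1 + conj om * p 2) := by
    rw [F2]; push_cast; ring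
  rw [e, im_ofReal_mul]
  simp only [om, add_im, mul_im, conj_re, conj_im]
  ring

theorem B_re (p q : Fin 3 → ℂ) : (B p q).re = (F1 p).re * (F1 q).re + (F1 p).im * (F1 q).im -
    (F2 p).re * (F2 q).re - (F2 p).im * (F2 q).im := by
  simp only [B, sub_re, mul_re, conj_re, conj_im]
  ring

theorem B_im (p q : Fin 3 → ℂ) : (B p q).im = (F1 p).im * (F1 q).re - (F1 p).re * (F1 q).im -
    (F2 p).re * (F2 q).im + (F2 p).im * (F2 q).re := by
  simp only [B, sub_im, mul_im, conj_re, conj_im]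
  ring

theorem B_self_im (p : Fin 3 → ℂ) : (B p p).im = 0 := by
  rw [B_im]; ring

theorem ar_expand (a b c : ℂ) : ar a b c =
    (b.re - a.re) * (c.im - a.im) - (b.im - a.im) * (c.re - a.re) := by
  simp only [ar, mul_im, conj_re, conj_im, sub_re, sub_im]
  ring

theorem ar_eq (p : Fin 3 → ℂ) : ar (p 0) (p 1) (p 2) = 3 * Real.sqrt 3 / 2 * (B p p).re := by
  have h33 : Real.sqrt 3 * Real.sqrt 3 = 3 := Real.mul_self_sqrt (by norm_num)
  rw [B_re, F1_re, F1_im, F2_re, F2_im, ar_expand]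
  linear_combination (-(p 0).re * (p 1).im / 3 + (p 0).im * (p 1).re / 3
    + (p 0).re * (p 2).im / 3 - (p 0).im * (p 2).re / 3 - (p 1).re * (p 2).im / 3
    + (p 1).im * (p 2).re / 3) * h33

theorem trace0 (p q : Fin 3 → ℂ) :
    ar (q 0) (p 1) (p 2) + ar (q 1) (p 2) (p 0) + ar (q 2) (p 0) (p 1) =
      ar (p 0) (p 1) (p 2) + 3 * Real.sqrt 3 * (B p q).re := by
  have h33 : Real.sqrt 3 * Real.sqrt 3 = 3 := Real.mul_self_sqrt (by norm_num)
  rw [B_re, F1_re, F1_im, F2_re, F2_im, F1_re, F1_im, F2_re, F2_im]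
  simp only [ar_expand]
  ring_nf
  rw [show Real.sqrt 3 ^ 2 = 3 by rw [sq]; exact h33]
  ring

theorem rev_cs (p q : Fin 3 → ℂ) (_hp : 0 ≤ (B p p).re) (_hq : 0 ≤ (B q q).re) :
    (B p p).re * (B q q).re ≤ normSq (B p q) := by
  have e : normSq (B p q) - (B p p).re * (B q q).re =
      normSq (F1 p * conj (F2 q) - F1 q * conj (F2 p)) := by
    rw [normSq_apply, normSq_apply, B_re, B_re, B_re, B_im]
    simp only [sub_re, sub_im, mul_re, mul_im, conj_re, conj_im]
    ring
  have := normSq_nonneg (F1 p * conj (F2 q) - F1 q * conj (F2 p))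
  linarith

theorem gram (p q s : Fin 3 → ℂ) :
    (B p p).re * (B q q).re * (B s s).re + 2 * (B p q * B q s * conj (B p s)).re =
      (B p p).re * normSq (B q s) + (B q q).re * normSq (B p s) +
        (B s s).re * normSq (B p q) := by
  simp only [normSq_apply, mul_re, mul_im, conj_re, conj_im, B_re, B_im]
  ring

end Pool.Agent.Helper63.ML
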