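import Mathlib

/-!
# The real inequality behind the planar lemma for `1/4`
-/

set_option autoImplicit false
namespace Pool.Agent.Helper63.ML

/-- Contribution of a cap to the upper support numbers. -/
noncomputable def Up (ε h a : ℝ) : ℝ := max 0 (2 * ε * h - (1 - ε) * (1 - a))
/-- Contribution of a cap to the lower support numbers. -/
noncomputable def Vp (ε h a b : ℝ) : ℝ := max (h - ε * (a - b)) ε

theorem ub {ε h a b d x y z : ℝ} (hε0 : 0 ≤ ε) (hε1 : ε ≤ 1) (hh : 0 < h) (hd : 0 ≤ d)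
    (hs : x + y + z = 1) (hx : x ≤ 1) (hz : -h ≤ z) (hex : z ≤ 0 → b * (-z) - h * y ≤ d)
    (hab : a + b = 1 + h) :
    x + ε * (y - z) ≤ 1 + Up ε h a + (1 - ε) * d / h := by
  have hd' : 0 ≤ (1 - ε) * d / h := by
    have : 0 ≤ 1 - ε := by linarith
    positivity
  have hU0 : 0 ≤ Up ε h a := le_max_left _ _
  have hU1 : 2 * ε * h - (1 - ε) * (1 - a) ≤ Up ε h a := le_max_right _ _
  rcases le_total 0 z with hz0 | hz0
  · have : x + ε * (y - z) ≤ 1 := by
      have e : y = 1 - x - z := by linarith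
      rw [e]
      nlinarith
    linarith
  · have h1 := hex hz0
    set ζ := -z with hζ
    have hζ0 : 0 ≤ ζ := by linarith
    have hζh : ζ ≤ h := by linarith
    have ey : y = 1 + ζ - x := by linarith
    have eb : b = h + (1 - a) := by linarith
    rw [ey, eb] at h1
    -- (1-a) ζ ≤ h (1 - x) + d
    have h2 : (1 - a) * ζ - d ≤ h * (1 - x) := by nlinarith
    have h3 : ((1 - a) * ζ - d) / h ≤ 1 - x := by
      rw [div_le_iff₀ hh]; linarith
    have e1 : x + ε * (y - z) = 1 - (1 - ε) * (1 - x) + 2 * ε * ζ := by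
      rw [ey, hζ]; ring
    rw [e1]
    have h4 : (1 - ε) * (((1 - a) * ζ - d) / h) ≤ (1 - ε) * (1 - x) :=
      mul_le_mul_of_nonneg_left h3 (by linarith)
    have e2 : (1 - ε) * (((1 - a) * ζ - d) / h) =
        ζ / h * ((1 - ε) * (1 - a)) - (1 - ε) * d / h := by ring
    have e3 : 2 * ε * ζ = ζ / h * (2 * ε * h) := by field_simp
    have hr0 : 0 ≤ ζ / h := by positivity
    have hr1 : ζ / h ≤ 1 := (div_le_one hh).2 hζh
    have h5 : ζ / h * (2 * ε * h - (1 - ε) * (1 - a)) ≤ Up ε h a := by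
      calc ζ / h * (2 * ε * h - (1 - ε) * (1 - a)) ≤ ζ / h * Up ε h a :=
            mul_le_mul_of_nonneg_left hU1 hr0
        _ ≤ 1 * Up ε h a := mul_le_mul_of_nonneg_right hr1 hU0
        _ = _ := one_mul _
    rw [e2] at h4
    rw [e3]
    have h6 : ζ / h * (2 * ε * h - (1 - ε) * (1 - a)) =
      ζ / h * (2 * ε * h) - ζ / h * ((1 - ε) * (1 - a)) := by ring
    linarith

theorem lb {ε h a b d x y z : ℝ} (hε0 : 0 ≤ ε) (hε1 : ε ≤ 1) (hh : 0 < h) (hd : 0 ≤ d)
    (hs : x + y + z = 1) (hz : z ≤ 1) (hx : -h ≤ x) (hex : x ≤ 0 → a * (-x) - h * y ≤ d)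
    (hab : a + b = 1 + h) :
    -x - ε * (y - z) ≤ Vp ε h a b + 2 * ε * d / h := by
  have hd' : 0 ≤ 2 * ε * d / h := by positivity
  have hV0 : ε ≤ Vp ε h a b := le_max_right _ _
  have hV1 : h - ε * (a - b) ≤ Vp ε h a b := le_max_left _ _
  rcases le_total 0 x with hx0 | hx0
  · have : -x - ε * (y - z) ≤ ε := by
      have e : y = 1 - x - z := by linarith
      rw [e]
      nlinarith
    linarith
  · have h1 := hex hx0
    set ζ := -x with hζ
    have hζ0 : 0 ≤ ζ := by linarith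
    have hζh : ζ ≤ h := by linarith
    have ez : z = 1 + ζ - y := by linarith
    have eb : b = 1 + h - a := by linarith
    have h3 : (a * ζ - d) / h ≤ y := by
      rw [div_le_iff₀ hh]; linarith
    have e1 : ζ - ε * (y - z) = ζ * (1 + ε) + ε - 2 * ε * y := by
      rw [ez]; ring
    rw [e1]
    have h4 : 2 * ε * ((a * ζ - d) / h) ≤ 2 * ε * y :=
      mul_le_mul_of_nonneg_left h3 (by linarith)
    have e2 : 2 * ε * ((a * ζ - d) / h) = ζ / h * (2 * ε * a) - 2 * ε * d / h := by ring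
    have e3 : ζ * (1 + ε) = ζ / h * (h * (1 + ε)) := by field_simp
    have hr0 : 0 ≤ ζ / h := by positivity
    have hr1 : ζ / h ≤ 1 := (div_le_one hh).2 hζh
    have h5 : ε + ζ / h * (h * (1 + ε) - 2 * ε * a) ≤ Vp ε h a b := by
      have e4 : h - ε * (a - b) = ε + (h * (1 + ε) - 2 * ε * a) := by rw [eb]; ring
      rw [e4] at hV1
      rcases le_total 0 (h * (1 + ε) - 2 * ε * a) with hc | hc
      · have := mul_le_mul_of_nonneg_right hr1 hc
        linarith
      · have := mul_nonpos_of_nonneg_of_nonpos hr0 hc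
        linarith
    rw [e2] at h4
    rw [e3]
    have h6 : ζ / h * (h * (1 + ε) - 2 * ε * a) =
      ζ / h * (h * (1 + ε)) - ζ / h * (2 * ε * a) := by ring
    linarith

/-- Bound of the contribution of one cap by a piecewise linear function of its position `t`. -/
theorem phi_le {ε h a b t N : ℝ} (hε0 : 0 ≤ ε) (hh : ε ≤ h) (h1 : h ≤ 1)
    (hc : 4 * ε * h ≤ (1 - ε) * (1 - h)) (hN1 : ε * (3 * h - 1) ≤ N)
    (hN2 : ε - h * (1 - 2 * ε) ≤ N) (ht0 : -1 ≤ t) (ht1 : t ≤ 1)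
    (ha : a = (1 + h) / 2 + t * (1 - h) / 2) (hb : b = (1 + h) / 2 - t * (1 - h) / 2) :
    Up ε h a + Vp ε h a b ≤ h + ε * (1 - h) * max (-t) 0 + N * max t 0 := by
  have e1 : 2 * ε * h - (1 - ε) * (1 - a) =
      2 * ε * h - (1 - ε) * (1 - h) / 2 * (1 - t) := by rw [ha]; ring
  have e2 : h - ε * (a - b) = h - ε * (1 - h) * t := by rw [ha, hb]; ring
  have hε1 : 0 ≤ ε * (1 - h) := mul_nonneg hε0 (by linarith)
  unfold Up Vp
  rw [e1, e2]
  rcases le_total t 0 with ht | ht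
  · rw [max_eq_left (by linarith : (0 : ℝ) ≤ -t), max_eq_right ht]
    have h2 : 2 * ε * h - (1 - ε) * (1 - h) / 2 * (1 - t) ≤ 0 := by
      have h3 : 0 ≤ (1 - ε) * (1 - h) := by nlinarith
      nlinarith
    rw [max_eq_left h2]
    have h4 : ε ≤ h - ε * (1 - h) * t := by nlinarith
    rw [max_eq_left h4]
    linarith
  · rw [max_eq_right (by linarith : -t ≤ (0 : ℝ)), max_eq_left ht]
    have h3 : 0 ≤ (1 - ε) * (1 - h) := by nlinarith
    rcases max_cases 0 (2 * ε * h - (1 - ε) * (1 - h) / 2 * (1 - t)) with ⟨hm, hm'⟩ | ⟨hm, hm'⟩ <;>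
    rcases max_cases (h - ε * (1 - h) * t) ε with ⟨hk, hk'⟩ | ⟨hk, hk'⟩ <;>
    rw [hm, hk]
    · have q1 : 0 ≤ t * (N - ε * (3 * h - 1)) := mul_nonneg ht (by linarith)
      have q2 : 0 ≤ t * (ε * h) := mul_nonneg ht (mul_nonneg hε0 (by linarith))
      linarith
    · have q1 : 0 ≤ t * (N - (ε - h * (1 - 2 * ε))) := mul_nonneg ht (by linarith)
      have q2 : 0 ≤ t * (ε * h) := mul_nonneg ht (mul_nonneg hε0 (by linarith))
      have q3 : 0 ≤ (1 - t) * (h - ε) := mul_nonneg (by linarith) (by linarith)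
      linarith
    · have q1 : 0 ≤ t * (N - ε * (3 * h - 1)) := mul_nonneg ht (by linarith)
      have q2 : 0 ≤ (1 - t) * ((1 - ε) * (1 - h) - 4 * ε * h) :=
        mul_nonneg (by linarith) (by linarith)
      linarith
    · have q1 : 0 ≤ t * (N - (ε - h * (1 - 2 * ε))) := mul_nonneg ht (by linarith)
      have q2 : 0 ≤ (1 - t) * ((1 - ε) * (1 - h) - 4 * ε * h) :=
        mul_nonneg (by linarith) (by linarith)
      have q3 : 0 ≤ (1 - t) * (h - ε) := mul_nonneg (by linarith) (by linarith)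
      linarith

/-- Sign choice, core case. -/
theorem comb_core {P0 P1 P2 N0 N1 N2 s t0 t1 B : ℝ} (s0 : 0 ≤ s) (s1 : s ≤ 1) (a0 : 0 ≤ t0)
    (a1 : t0 ≤ 1) (b0 : 0 ≤ t1) (b1 : t1 ≤ 1) (p2 : 0 ≤ P2)
    (q0 : 0 ≤ P0 + N0) (q1 : 0 ≤ P1 + N1) (q2 : 0 ≤ P2 + N2)
    (h02 : P0 + N2 ≤ B) (h12 : P1 + N2 ≤ B) (h20 : P2 + N0 ≤ B) (h21 : P2 + N1 ≤ B)
    (hN : N0 ≤ 0 ∨ N1 ≤ 0) :
    P2 * s + N0 * t0 + N1 * t1 ≤ B ∨ P0 * t0 + P1 * t1 + N2 * s ≤ B := by
  rcases le_total 1 (t0 + t1) with h | h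
  · left
    have e : P2 * s ≤ P2 := by nlinarith
    rcases le_total N0 N1 with hc | hc
    · -- `N1` is the larger one
      have : N0 * t0 + N1 * t1 ≤ N1 := by
        rcases le_total N1 0 with h1 | h1
        · nlinarith
        · have : N0 ≤ 0 := by
            rcases hN with h | h
            · exact h
            · linarith
          nlinarith
      linarith
    · have : N0 * t0 + N1 * t1 ≤ N0 := by
        rcases le_total N0 0 with h1 | h1
        · nlinarith
        · have : N1 ≤ 0 := by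
            rcases hN with h | h
            · linarith
            · exact h
          nlinarith
      linarith
  · by_contra hcon
    push Not at hcon
    obtain ⟨c1, c2⟩ := hcon
    have e2 : (P2 + N2) * s ≤ P2 + N2 := by nlinarith
    rcases le_total (P0 + N0) (P1 + N1) with hc | hc
    · have : (P0 + N0) * t0 + (P1 + N1) * t1 ≤ P1 + N1 := by nlinarith
      nlinarith
    · have : (P0 + N0) * t0 + (P1 + N1) * t1 ≤ P0 + N0 := by nlinarith
      nlinarith

/-- Sign choice. -/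
theorem comb {P0 P1 P2 N0 N1 N2 t0 t1 t2 B : ℝ} (a0 : -1 ≤ t0) (a1 : t0 ≤ 1) (b0 : -1 ≤ t1)
    (b1 : t1 ≤ 1) (c0 : -1 ≤ t2) (c1 : t2 ≤ 1) (p0 : 0 ≤ P0) (p1 : 0 ≤ P1) (p2 : 0 ≤ P2)
    (q0 : 0 ≤ P0 + N0) (q1 : 0 ≤ P1 + N1) (q2 : 0 ≤ P2 + N2)
    (h01 : P0 + N1 ≤ B) (h02 : P0 + N2 ≤ B) (h12 : P1 + N2 ≤ B) (h10 : P1 + N0 ≤ B)
    (h20 : P2 + N0 ≤ B) (h21 : P2 + N1 ≤ B)
    (n01 : N0 ≤ 0 ∨ N1 ≤ 0) (n02 : N0 ≤ 0 ∨ N2 ≤ 0) (n12 : N1 ≤ 0 ∨ N2 ≤ 0) (hB : 0 ≤ B) :
    (P0 * max (-t0) 0 + N0 * max t0 0) + (P1 * max (-t1) 0 + N1 * max t1 0) +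
      (P2 * max (-t2) 0 + N2 * max t2 0) ≤ B ∨
    (P0 * max t0 0 + N0 * max (-t0) 0) + (P1 * max t1 0 + N1 * max (-t1) 0) +
      (P2 * max t2 0 + N2 * max (-t2) 0) ≤ B := by
  have all : ∀ s0 s1 s2 : ℝ, 0 ≤ s0 → s0 ≤ 1 → 0 ≤ s1 → s1 ≤ 1 → 0 ≤ s2 → s2 ≤ 1 →
      N0 * s0 + N1 * s1 + N2 * s2 ≤ B := by
    intro s0 s1 s2 u0 v0 u1 v1 u2 v2
    rcases n01 with h | h
    · rcases n12 with h' | h'
      · have : N2 * s2 ≤ B := by
          rcases le_total N2 0 with h3 | h3
          · nlinarith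
          · nlinarith
        nlinarith
      · have : N1 * s1 ≤ B := by
          rcases le_total N1 0 with h3 | h3
          · nlinarith
          · nlinarith
        nlinarith
    · rcases n02 with h' | h'
      · have : N2 * s2 ≤ B := by
          rcases le_total N2 0 with h3 | h3
          · nlinarith
          · nlinarith
        nlinarith
      · have : N0 * s0 ≤ B := by
          rcases le_total N0 0 with h3 | h3
          · nlinarith
          · nlinarith
        nlinarith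
  rcases le_total 0 t0 with h0 | h0 <;> rcases le_total 0 t1 with h1 | h1 <;>
    rcases le_total 0 t2 with h2 | h2
  · left
    rw [max_eq_right (neg_nonpos.2 h0), max_eq_left h0, max_eq_right (neg_nonpos.2 h1),
      max_eq_left h1, max_eq_right (neg_nonpos.2 h2), max_eq_left h2]
    have := all t0 t1 t2 h0 a1 h1 b1 h2 c1
    linarith
  · rw [max_eq_right (neg_nonpos.2 h0), max_eq_left h0, max_eq_right (neg_nonpos.2 h1),
      max_eq_left h1, max_eq_left (neg_nonneg.2 h2), max_eq_right h2]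
    rcases comb_core (s := -t2) (t0 := t0) (t1 := t1) (neg_nonneg.2 h2) (by linarith) h0 a1 h1 b1
      p2 q0 q1 q2 h02 h12 h20 h21 n01 with h | h
    · left; linarith
    · right; linarith
  · rw [max_eq_right (neg_nonpos.2 h0), max_eq_left h0, max_eq_left (neg_nonneg.2 h1),
      max_eq_right h1, max_eq_right (neg_nonpos.2 h2), max_eq_left h2]
    rcases comb_core (s := -t1) (t0 := t0) (t1 := t2) (neg_nonneg.2 h1) (by linarith) h0 a1 h2 c1
      p1 q0 q2 q1 h01 h21 h10 h12 n02 with h | h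
    · left; linarith
    · right; linarith
  · -- `t0 ≥ 0`, `t1, t2 ≤ 0`
    rw [max_eq_right (neg_nonpos.2 h0), max_eq_left h0, max_eq_left (neg_nonneg.2 h1),
      max_eq_right h1, max_eq_left (neg_nonneg.2 h2), max_eq_right h2]
    rcases comb_core (s := t0) (t0 := -t1) (t1 := -t2) h0 a1 (neg_nonneg.2 h1) (by linarith)
      (neg_nonneg.2 h2) (by linarith) p0 q1 q2 q0 h10 h20 h01 h02 n12 with h | h
    · right; linarith
    · left; linarith
  · rw [max_eq_left (neg_nonneg.2 h0), max_eq_right h0, max_eq_right (neg_nonpos.2 h1),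
      max_eq_left h1, max_eq_right (neg_nonpos.2 h2), max_eq_left h2]
    rcases comb_core (s := -t0) (t0 := t1) (t1 := t2) (neg_nonneg.2 h0) (by linarith) h1 b1 h2 c1
      p0 q1 q2 q0 h10 h20 h01 h02 n12 with h | h
    · left; linarith
    · right; linarith
  · rw [max_eq_left (neg_nonneg.2 h0), max_eq_right h0, max_eq_right (neg_nonpos.2 h1),
      max_eq_left h1, max_eq_left (neg_nonneg.2 h2), max_eq_right h2]
    rcases comb_core (s := t1) (t0 := -t0) (t1 := -t2) h1 b1 (neg_nonneg.2 h0) (by linarith)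
      (neg_nonneg.2 h2) (by linarith) p1 q0 q2 q1 h01 h21 h10 h12 n02 with h | h
    · right; linarith
    · left; linarith
  · rw [max_eq_left (neg_nonneg.2 h0), max_eq_right h0, max_eq_left (neg_nonneg.2 h1),
      max_eq_right h1, max_eq_right (neg_nonpos.2 h2), max_eq_left h2]
    rcases comb_core (s := t2) (t0 := -t0) (t1 := -t1) h2 c1 (neg_nonneg.2 h0) (by linarith)
      (neg_nonneg.2 h1) (by linarith) p2 q0 q1 q2 h02 h12 h20 h21 n01 with h | h
    · right; linarith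
    · left; linarith
  · right
    rw [max_eq_left (neg_nonneg.2 h0), max_eq_right h0, max_eq_left (neg_nonneg.2 h1),
      max_eq_right h1, max_eq_left (neg_nonneg.2 h2), max_eq_right h2]
    have := all (-t0) (-t1) (-t2) (neg_nonneg.2 h0) (by linarith) (neg_nonneg.2 h1) (by linarith)
      (neg_nonneg.2 h2) (by linarith)
    linarith

end Pool.Agent.Helper63.ML
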