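import Pool.Agent.Helper63.ML.RealIneq

/-!
# The real inequality: the two regimes
-/

set_option autoImplicit false
namespace Pool.Agent.Helper63.ML

/-- The spread bound. -/
theorem spread {x y z : ℝ} :
    (3 * x - (x + y + z)) ^ 2 ≤ 6 * (x ^ 2 + y ^ 2 + z ^ 2) - 2 * (x + y + z) ^ 2 := by
  nlinarith [sq_nonneg (y - z)]

/-- Sign choice when all `N` are nonnegative. -/
theorem comb' {P0 P1 P2 N0 N1 N2 t0 t1 t2 B : ℝ} (a0 : -1 ≤ t0) (a1 : t0 ≤ 1) (b0 : -1 ≤ t1)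
    (b1 : t1 ≤ 1) (c0 : -1 ≤ t2) (c1 : t2 ≤ 1) (n0 : 0 ≤ N0) (n1 : 0 ≤ N1) (n2 : 0 ≤ N2)
    (q0 : N0 ≤ P0) (q1 : N1 ≤ P1) (q2 : N2 ≤ P2)
    (h0 : P0 + N1 + N2 ≤ B) (h1 : P1 + N0 + N2 ≤ B) (h2 : P2 + N0 + N1 ≤ B) :
    (P0 * max (-t0) 0 + N0 * max t0 0) + (P1 * max (-t1) 0 + N1 * max t1 0) +
      (P2 * max (-t2) 0 + N2 * max t2 0) ≤ B ∨
    (P0 * max t0 0 + N0 * max (-t0) 0) + (P1 * max t1 0 + N1 * max (-t1) 0) +
      (P2 * max t2 0 + N2 * max (-t2) 0) ≤ B := by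
  have m : ∀ N t : ℝ, 0 ≤ N → t ≤ 1 → N * t ≤ N := fun N t h ht => by nlinarith
  rcases le_total 0 t0 with u0 | u0 <;> rcases le_total 0 t1 with u1 | u1 <;>
    rcases le_total 0 t2 with u2 | u2
  · left
    rw [max_eq_right (neg_nonpos.2 u0), max_eq_left u0, max_eq_right (neg_nonpos.2 u1),
      max_eq_left u1, max_eq_right (neg_nonpos.2 u2), max_eq_left u2]
    linarith [m N0 t0 n0 a1, m N1 t1 n1 b1, m N2 t2 n2 c1]
  · left
    rw [max_eq_right (neg_nonpos.2 u0), max_eq_left u0, max_eq_right (neg_nonpos.2 u1),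
      max_eq_left u1, max_eq_left (neg_nonneg.2 u2), max_eq_right u2]
    linarith [m N0 t0 n0 a1, m N1 t1 n1 b1, m P2 (-t2) (by linarith) (by linarith)]
  · left
    rw [max_eq_right (neg_nonpos.2 u0), max_eq_left u0, max_eq_left (neg_nonneg.2 u1),
      max_eq_right u1, max_eq_right (neg_nonpos.2 u2), max_eq_left u2]
    linarith [m N0 t0 n0 a1, m P1 (-t1) (by linarith) (by linarith), m N2 t2 n2 c1]
  · right
    rw [max_eq_right (neg_nonpos.2 u0), max_eq_left u0, max_eq_left (neg_nonneg.2 u1),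
      max_eq_right u1, max_eq_left (neg_nonneg.2 u2), max_eq_right u2]
    linarith [m P0 t0 (by linarith) a1, m N1 (-t1) n1 (by linarith), m N2 (-t2) n2 (by linarith)]
  · left
    rw [max_eq_left (neg_nonneg.2 u0), max_eq_right u0, max_eq_right (neg_nonpos.2 u1),
      max_eq_left u1, max_eq_right (neg_nonpos.2 u2), max_eq_left u2]
    linarith [m P0 (-t0) (by linarith) (by linarith), m N1 t1 n1 b1, m N2 t2 n2 c1]
  · right
    rw [max_eq_left (neg_nonneg.2 u0), max_eq_right u0, max_eq_right (neg_nonpos.2 u1),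
      max_eq_left u1, max_eq_left (neg_nonneg.2 u2), max_eq_right u2]
    linarith [m N0 (-t0) n0 (by linarith), m P1 t1 (by linarith) b1, m N2 (-t2) n2 (by linarith)]
  · right
    rw [max_eq_left (neg_nonneg.2 u0), max_eq_right u0, max_eq_left (neg_nonneg.2 u1),
      max_eq_right u1, max_eq_right (neg_nonpos.2 u2), max_eq_left u2]
    linarith [m N0 (-t0) n0 (by linarith), m N1 (-t1) n1 (by linarith), m P2 t2 (by linarith) c1]
  · right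
    rw [max_eq_left (neg_nonneg.2 u0), max_eq_right u0, max_eq_left (neg_nonneg.2 u1),
      max_eq_right u1, max_eq_left (neg_nonneg.2 u2), max_eq_right u2]
    linarith [m N0 (-t0) n0 (by linarith), m N1 (-t1) n1 (by linarith),
      m N2 (-t2) n2 (by linarith)]

/-- The position parameter. -/
theorem exists_t {h a : ℝ} (h1 : h < 1) (ha : h ≤ a) (ha1 : a ≤ 1) :
    ∃ t : ℝ, -1 ≤ t ∧ t ≤ 1 ∧ a = (1 + h) / 2 + t * (1 - h) / 2 ∧
      1 + h - a = (1 + h) / 2 - t * (1 - h) / 2 := by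
  have hp : 0 < 1 - h := by linarith
  refine ⟨(2 * a - 1 - h) / (1 - h), ?_, ?_, ?_, ?_⟩
  · rw [le_div_iff₀ hp]; linarith
  · rw [div_le_iff₀ hp]; linarith
  · rw [div_mul_cancel₀ _ hp.ne']; ring
  · rw [div_mul_cancel₀ _ hp.ne']; ring

theorem inv_le_quad {h : ℝ} (hh : 56 / 250 ≤ h) :
    1 / h ≤ 25 / 7 - 625 / 49 * (h - 7 / 25) + 57 * (h - 7 / 25) ^ 2 := by
  have h0 : 0 < h := by linarith
  rw [div_le_iff₀ h0]
  have e : (25 / 7 - 625 / 49 * (h - 7 / 25) + 57 * (h - 7 / 25) ^ 2) * h - 1 =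
      (h - 7 / 25) ^ 2 * (57 * h - 625 / 49) := by ring
  have h1 : 0 ≤ (h - 7 / 25) ^ 2 * (57 * h - 625 / 49) := by
    apply mul_nonneg (sq_nonneg _)
    linarith
  linarith

/-- Quadratic inequality, type A. -/
theorem quadA {x y z d m : ℝ} (hm : m = 1 - (x + y + z)) (hm0 : 0 ≤ m) (hm1 : m ≤ 1634 / 10000)
    (hd : 8 * d + (6 * (x ^ 2 + y ^ 2 + z ^ 2) - 2 * (x + y + z) ^ 2) ≤ m ^ 2) :
    (1 - x) / 6 + (3 * y - 1) / 6 ≤ 153 / 1000 - 259 / 20 * d := by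
  obtain ⟨u, hu⟩ : ∃ u, u = x - (1 - m) / 3 := ⟨_, rfl⟩
  obtain ⟨v, hv⟩ : ∃ v, v = y - (1 - m) / 3 := ⟨_, rfl⟩
  have ex : x = u + (1 - m) / 3 := by rw [hu]; ring
  have ey : y = v + (1 - m) / 3 := by rw [hv]; ring
  have ez : z = -u - v + (1 - m) / 3 := by linarith
  rw [ex, ey, ez] at hd
  rw [ex, ey]
  have hd' : 8 * d + 12 * (u ^ 2 + v ^ 2 + u * v) ≤ m ^ 2 := by linarith
  have k1 : (3 * v - u) / 6 - 777 / 40 * (u ^ 2 + v ^ 2 + u * v) ≤ 62 / 10000 := by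
    nlinarith [sq_nonneg (u + v / 2 + 10 / 2331), sq_nonneg (v - 20 / 999)]
  have k2 : 0 ≤ m * (1634 / 10000 - m) := mul_nonneg hm0 (by linarith)
  linarith

/-- Quadratic inequality, type B. -/
theorem quadB {x y z d m : ℝ} (hm : m = 1 - (x + y + z)) (hm0 : 0 ≤ m) (hm1 : m ≤ 1634 / 10000)
    (hd : 8 * d + (6 * (x ^ 2 + y ^ 2 + z ^ 2) - 2 * (x + y + z) ^ 2) ≤ m ^ 2) :
    (1 - x) / 6 + (1 - 4 * y) / 6 ≤ 153 / 1000 - 259 / 20 * d := by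
  obtain ⟨u, hu⟩ : ∃ u, u = x - (1 - m) / 3 := ⟨_, rfl⟩
  obtain ⟨v, hv⟩ : ∃ v, v = y - (1 - m) / 3 := ⟨_, rfl⟩
  have ex : x = u + (1 - m) / 3 := by rw [hu]; ring
  have ey : y = v + (1 - m) / 3 := by rw [hv]; ring
  have ez : z = -u - v + (1 - m) / 3 := by linarith
  rw [ex, ey, ez] at hd
  rw [ex, ey]
  have hd' : 8 * d + 12 * (u ^ 2 + v ^ 2 + u * v) ≤ m ^ 2 := by linarith
  have k1 : -(u + 4 * v) / 6 - 777 / 40 * (u ^ 2 + v ^ 2 + u * v) ≤ 62 / 10000 := by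
    nlinarith [sq_nonneg (u + v / 2 + 10 / 2331), sq_nonneg (v + 20 / 999)]
  have k2 : 0 ≤ m * (1634 / 10000 - m) := mul_nonneg hm0 (by linarith)
  linarith

theorem Up_nonneg (ε h a : ℝ) : 0 ≤ Up ε h a := le_max_left _ _

/-- The two possible total widths. -/
noncomputable def Tot (ε h0 h1 h2 a0 a1 a2 b0 b1 b2 d : ℝ) : ℝ :=
  3 + (Up ε h0 a0 + Vp ε h0 a0 b0) + (Up ε h1 a1 + Vp ε h1 a1 b1) +
    (Up ε h2 a2 + Vp ε h2 a2 b2) + (1 + ε) * d * (1 / h0 + 1 / h1 + 1 / h2)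

/-- Regime one: `σ < 1`. -/
theorem regime1 {h0 h1 h2 a0 a1 a2 V : ℝ} (hσ : h0 + h1 + h2 ≤ 1)
    (hV1 : 184 / 100 ≤ V) (hV2 : 1 + (h0 + h1 + h2) ≤ V)
    (hf : 8 * V < 9 + 6 * (h0 + h1 + h2) + 3 * (h0 + h1 + h2) ^ 2 - 6 * (h0 ^ 2 + h1 ^ 2 + h2 ^ 2))
    (ha0 : h0 ≤ a0) (ha0' : a0 ≤ 1) (ha1 : h1 ≤ a1) (ha1' : a1 ≤ 1) (ha2 : h2 ≤ a2)
    (ha2' : a2 ≤ 1) (hn0 : 0 ≤ h0) (hn1 : 0 ≤ h1) (hn2 : 0 ≤ h2) :
    (1 / 6 ≤ h0 ∧ h0 ≤ 1 / 2) ∧ (1 / 6 ≤ h1 ∧ h1 ≤ 1 / 2) ∧ (1 / 6 ≤ h2 ∧ h2 ≤ 1 / 2) ∧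
    V - 1 - (h0 + h1 + h2) ≤ 1 / 100 ∧
    (Tot (1 / 6) h0 h1 h2 a0 a1 a2 (1 + h0 - a0) (1 + h1 - a1) (1 + h2 - a2)
        (V - 1 - (h0 + h1 + h2)) ^ 2 ≤ 8 * (1 + 3 * (1 / 6) ^ 2) * V ∨
      Tot (1 / 6) h0 h1 h2 (1 + h0 - a0) (1 + h1 - a1) (1 + h2 - a2) a0 a1 a2
        (V - 1 - (h0 + h1 + h2)) ^ 2 ≤ 8 * (1 + 3 * (1 / 6) ^ 2) * V) := by
  obtain ⟨s, hs⟩ : ∃ s, s = h0 + h1 + h2 := ⟨_, rfl⟩
  obtain ⟨d, hd⟩ : ∃ d, d = V - 1 - (h0 + h1 + h2) := ⟨_, rfl⟩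
  obtain ⟨m, hm⟩ : ∃ m, m = 1 - (h0 + h1 + h2) := ⟨_, rfl⟩
  have hd0 : 0 ≤ d := by linarith
  have hm0 : 0 ≤ m := by linarith
  rw [← hd]
  have hfd : 8 * d + (6 * (h0 ^ 2 + h1 ^ 2 + h2 ^ 2) - 2 * (h0 + h1 + h2) ^ 2) < m ^ 2 := by
    have e : m ^ 2 = 1 - 2 * (h0 + h1 + h2) + (h0 + h1 + h2) ^ 2 := by rw [hm]; ring
    rw [e, hd]
    linarith
  have sp0 := spread (x := h0) (y := h1) (z := h2)
  have sp1 : (3 * h1 - (h0 + h1 + h2)) ^ 2 ≤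
      6 * (h0 ^ 2 + h1 ^ 2 + h2 ^ 2) - 2 * (h0 + h1 + h2) ^ 2 := by
    have := spread (x := h1) (y := h0) (z := h2)
    nlinarith [this]
  have sp2 : (3 * h2 - (h0 + h1 + h2)) ^ 2 ≤
      6 * (h0 ^ 2 + h1 ^ 2 + h2 ^ 2) - 2 * (h0 + h1 + h2) ^ 2 := by
    have := spread (x := h2) (y := h1) (z := h0)
    nlinarith [this]
  have S0 : 0 ≤ 6 * (h0 ^ 2 + h1 ^ 2 + h2 ^ 2) - 2 * (h0 + h1 + h2) ^ 2 :=
    (sq_nonneg _).trans sp0
  -- `m` is small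
  have hm1 : m ≤ 1634 / 10000 := by
    by_contra hcon
    push Not at hcon
    have h3 : (3 + s) ^ 2 ≤ (38366 / 10000) ^ 2 := by
      apply pow_le_pow_left₀ (by rw [hs]; positivity)
      rw [hs]; linarith
    rw [hs] at h3
    nlinarith
  have hsm : 8366 / 10000 ≤ s := by rw [hs]; linarith
  have c0 := abs_lt_of_sq_lt_sq (lt_of_le_of_lt sp0 (by linarith : _ < m ^ 2)) hm0
  have c1 := abs_lt_of_sq_lt_sq (lt_of_le_of_lt sp1 (by linarith : _ < m ^ 2)) hm0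
  have c2 := abs_lt_of_sq_lt_sq (lt_of_le_of_lt sp2 (by linarith : _ < m ^ 2)) hm0
  rw [abs_lt] at c0 c1 c2
  have l0 : 56 / 250 ≤ h0 := by linarith [c0.1]
  have l1 : 56 / 250 ≤ h1 := by linarith [c1.1]
  have l2 : 56 / 250 ≤ h2 := by linarith [c2.1]
  have u0 : h0 ≤ 1 / 3 := by linarith [c0.2]
  have u1 : h1 ≤ 1 / 3 := by linarith [c1.2]
  have u2 : h2 ≤ 1 / 3 := by linarith [c2.2]
  have hmm : m ^ 2 ≤ (1634 / 10000) ^ 2 := pow_le_pow_left₀ hm0 hm1 2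
  have hd1 : d ≤ 1 / 100 := by linarith
  refine ⟨⟨by linarith, by linarith⟩, ⟨by linarith, by linarith⟩, ⟨by linarith, by linarith⟩,
    hd1, ?_⟩
  -- the sum of the reciprocals
  have hinv : 1 / h0 + 1 / h1 + 1 / h2 ≤ 111 / 10 := by
    have i0 := inv_le_quad l0
    have i1 := inv_le_quad l1
    have i2 := inv_le_quad l2
    have hq : 6 * (h0 ^ 2 + h1 ^ 2 + h2 ^ 2) ≤ m ^ 2 + 2 * (1 - m) ^ 2 := by
      have e : (1 - m) ^ 2 = (h0 + h1 + h2) ^ 2 := by rw [hm]; ring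
      rw [e]; linarith
    have hq2 : 0 ≤ m * (1634 / 10000 - m) := mul_nonneg hm0 (by linarith)
    have e1 : (h0 - 7 / 25) ^ 2 + (h1 - 7 / 25) ^ 2 + (h2 - 7 / 25) ^ 2 =
      (h0 ^ 2 + h1 ^ 2 + h2 ^ 2) - 14 / 25 * (h0 + h1 + h2) + 147 / 625 := by ring
    have e2 : h0 + h1 + h2 = 1 - m := by linarith
    rw [e2] at e1
    linarith
  have hC : (1 + 1 / 6) * d * (1 / h0 + 1 / h1 + 1 / h2) ≤ 259 / 20 * d := by
    calc (1 + 1 / 6) * d * (1 / h0 + 1 / h1 + 1 / h2) ≤ (1 + 1 / 6) * d * (111 / 10) := by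
          apply mul_le_mul_of_nonneg_left hinv (by linarith)
      _ = 259 / 20 * d := by ring
  have hC0 : 0 ≤ (1 + 1 / 6) * d * (1 / h0 + 1 / h1 + 1 / h2) := by
    have : 0 ≤ 1 / h0 + 1 / h1 + 1 / h2 := by positivity
    apply mul_nonneg (by linarith) this
  obtain ⟨t0, t00, t01, t02, t03⟩ := exists_t (by linarith : h0 < 1) ha0 ha0'
  obtain ⟨t1, t10, t11, t12, t13⟩ := exists_t (by linarith : h1 < 1) ha1 ha1'
  obtain ⟨t2, t20, t21, t22, t23⟩ := exists_t (by linarith : h2 < 1) ha2 ha2'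
  have hfd' := hfd.le
  have P01 : (1 - h0) / 6 + max ((3 * h1 - 1) / 6) ((1 - 4 * h1) / 6) ≤
      153 / 1000 - 259 / 20 * d := by
    rcases max_cases ((3 * h1 - 1) / 6) ((1 - 4 * h1) / 6) with ⟨h, _⟩ | ⟨h, _⟩ <;> rw [h]
    · exact quadA hm hm0 hm1 hfd'
    · exact quadB hm hm0 hm1 hfd'
  have P02 : (1 - h0) / 6 + max ((3 * h2 - 1) / 6) ((1 - 4 * h2) / 6) ≤
      153 / 1000 - 259 / 20 * d := by
    rcases max_cases ((3 * h2 - 1) / 6) ((1 - 4 * h2) / 6) with ⟨h, _⟩ | ⟨h, _⟩ <;> rw [h]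
    · exact quadA (z := h1) (by linarith) hm0 hm1 (by linarith)
    · exact quadB (z := h1) (by linarith) hm0 hm1 (by linarith)
  have P10 : (1 - h1) / 6 + max ((3 * h0 - 1) / 6) ((1 - 4 * h0) / 6) ≤
      153 / 1000 - 259 / 20 * d := by
    rcases max_cases ((3 * h0 - 1) / 6) ((1 - 4 * h0) / 6) with ⟨h, _⟩ | ⟨h, _⟩ <;> rw [h]
    · exact quadA (z := h2) (by linarith) hm0 hm1 (by linarith)
    · exact quadB (z := h2) (by linarith) hm0 hm1 (by linarith)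
  have P12 : (1 - h1) / 6 + max ((3 * h2 - 1) / 6) ((1 - 4 * h2) / 6) ≤
      153 / 1000 - 259 / 20 * d := by
    rcases max_cases ((3 * h2 - 1) / 6) ((1 - 4 * h2) / 6) with ⟨h, _⟩ | ⟨h, _⟩ <;> rw [h]
    · exact quadA (z := h0) (by linarith) hm0 hm1 (by linarith)
    · exact quadB (z := h0) (by linarith) hm0 hm1 (by linarith)
  have P20 : (1 - h2) / 6 + max ((3 * h0 - 1) / 6) ((1 - 4 * h0) / 6) ≤
      153 / 1000 - 259 / 20 * d := by
    rcases max_cases ((3 * h0 - 1) / 6) ((1 - 4 * h0) / 6) with ⟨h, _⟩ | ⟨h, _⟩ <;> rw [h]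
    · exact quadA (z := h1) (by linarith) hm0 hm1 (by linarith)
    · exact quadB (z := h1) (by linarith) hm0 hm1 (by linarith)
  have P21 : (1 - h2) / 6 + max ((3 * h1 - 1) / 6) ((1 - 4 * h1) / 6) ≤
      153 / 1000 - 259 / 20 * d := by
    rcases max_cases ((3 * h1 - 1) / 6) ((1 - 4 * h1) / 6) with ⟨h, _⟩ | ⟨h, _⟩ <;> rw [h]
    · exact quadA (z := h0) (by linarith) hm0 hm1 (by linarith)
    · exact quadB (z := h0) (by linarith) hm0 hm1 (by linarith)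
  have nn : ∀ h : ℝ, 1 / 4 ≤ h → h ≤ 1 / 3 → max ((3 * h - 1) / 6) ((1 - 4 * h) / 6) ≤ 0 := by
    intro h h1 h2
    apply max_le <;> linarith
  have qq : ∀ h : ℝ, 0 ≤ h → 0 ≤ (1 - h) / 6 + max ((3 * h - 1) / 6) ((1 - 4 * h) / 6) := by
    intro h h1
    have := le_max_left ((3 * h - 1) / 6) ((1 - 4 * h) / 6)
    linarith
  have key := comb (P0 := (1 - h0) / 6) (P1 := (1 - h1) / 6) (P2 := (1 - h2) / 6)
    (N0 := max ((3 * h0 - 1) / 6) ((1 - 4 * h0) / 6))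
    (N1 := max ((3 * h1 - 1) / 6) ((1 - 4 * h1) / 6))
    (N2 := max ((3 * h2 - 1) / 6) ((1 - 4 * h2) / 6)) t00 t01 t10 t11 t20 t21
    (by linarith) (by linarith) (by linarith) (qq h0 hn0) (qq h1 hn1) (qq h2 hn2)
    P01 P02 P12 P10 P20 P21
    (by
      rcases le_total (1 / 4) h0 with h | h
      · exact Or.inl (nn _ h u0)
      · exact Or.inr (nn _ (by linarith) u1))
    (by
      rcases le_total (1 / 4) h0 with h | h
      · exact Or.inl (nn _ h u0)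
      · exact Or.inr (nn _ (by linarith) u2))
    (by
      rcases le_total (1 / 4) h1 with h | h
      · exact Or.inl (nn _ h u1)
      · exact Or.inr (nn _ (by linarith) u2))
    (by linarith)
  have fin : ∀ T : ℝ, 0 ≤ T → T ≤ 3 + s + 153 / 1000 → T ^ 2 ≤ 8 * (1 + 3 * (1 / 6) ^ 2) * V := by
    intro T hT0 hT
    have h1 : T ^ 2 ≤ (3 + s + 153 / 1000) ^ 2 := pow_le_pow_left₀ hT0 hT 2
    refine h1.trans ?_
    have hs1 : s ≤ 1 := by linarith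
    rcases le_total s (84 / 100) with h2 | h2
    · have h3 : (3 + s + 153 / 1000) ^ 2 ≤ (3993 / 1000) ^ 2 := by
        apply pow_le_pow_left₀ (by linarith)
        linarith
      have h4 : ((3993 : ℝ) / 1000) ^ 2 ≤ 26 / 3 * (184 / 100) := by norm_num
      have h5 : (8 : ℝ) * (1 + 3 * (1 / 6) ^ 2) = 26 / 3 := by norm_num
      rw [h5]
      linarith
    · have h5 : (8 : ℝ) * (1 + 3 * (1 / 6) ^ 2) = 26 / 3 := by norm_num
      rw [h5]
      have h6 : 0 ≤ (s - 84 / 100) * (1 - s) := mul_nonneg (by linarith) (by linarith)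
      have h7 : 26 / 3 * (1 + s) ≤ 26 / 3 * V := by
        have : 1 + s ≤ V := by rw [hs]; exact hV2
        linarith
      nlinarith
  have hφ : ∀ h a t : ℝ, 56 / 250 ≤ h → h ≤ 1 / 3 → -1 ≤ t → t ≤ 1 →
      a = (1 + h) / 2 + t * (1 - h) / 2 → 1 + h - a = (1 + h) / 2 - t * (1 - h) / 2 →
      Up (1 / 6) h a + Vp (1 / 6) h a (1 + h - a) ≤ h + (1 - h) / 6 * max (-t) 0 +
        max ((3 * h - 1) / 6) ((1 - 4 * h) / 6) * max t 0 := by
    intro h a t g1 g2 g3 g4 g5 g6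
    have := phi_le (ε := 1 / 6) (h := h) (a := a) (b := 1 + h - a) (t := t)
      (N := max ((3 * h - 1) / 6) ((1 - 4 * h) / 6)) (by norm_num) (by linarith) (by linarith)
      (by linarith) (by
        have := le_max_left ((3 * h - 1) / 6) ((1 - 4 * h) / 6)
        linarith) (by
        have := le_max_right ((3 * h - 1) / 6) ((1 - 4 * h) / 6)
        linarith) g3 g4 g5 g6
    have e : 1 / 6 * (1 - h) * max (-t) 0 = (1 - h) / 6 * max (-t) 0 := by ring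
    rw [e] at this
    exact this
  have V0 : ∀ h a b : ℝ, 0 ≤ Vp (1 / 6) h a b := fun h a b =>
    (by norm_num : (0 : ℝ) ≤ 1 / 6).trans (le_max_right _ _)
  rcases key with hk | hk
  · left
    apply fin
    · unfold Tot
      have := Up_nonneg (1 / 6) h0 a0
      have := Up_nonneg (1 / 6) h1 a1
      have := Up_nonneg (1 / 6) h2 a2
      have := V0 h0 a0 (1 + h0 - a0)
      have := V0 h1 a1 (1 + h1 - a1)
      have := V0 h2 a2 (1 + h2 - a2)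
      linarith
    · unfold Tot
      have f0 := hφ h0 a0 t0 l0 u0 t00 t01 t02 t03
      have f1 := hφ h1 a1 t1 l1 u1 t10 t11 t12 t13
      have f2 := hφ h2 a2 t2 l2 u2 t20 t21 t22 t23
      linarith
  · right
    apply fin
    · unfold Tot
      have := Up_nonneg (1 / 6) h0 (1 + h0 - a0)
      have := Up_nonneg (1 / 6) h1 (1 + h1 - a1)
      have := Up_nonneg (1 / 6) h2 (1 + h2 - a2)
      have := V0 h0 (1 + h0 - a0) a0
      have := V0 h1 (1 + h1 - a1) a1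
      have := V0 h2 (1 + h2 - a2) a2
      linarith
    · unfold Tot
      have sw : ∀ h a : ℝ, 1 + h - (1 + h - a) = a := fun h a => by ring
      have f0 := hφ h0 (1 + h0 - a0) (-t0) l0 u0 (by linarith) (by linarith)
        (by rw [t03]; ring) (by rw [sw, t02]; ring)
      have f1 := hφ h1 (1 + h1 - a1) (-t1) l1 u1 (by linarith) (by linarith)
        (by rw [t13]; ring) (by rw [sw, t12]; ring)
      have f2 := hφ h2 (1 + h2 - a2) (-t2) l2 u2 (by linarith) (by linarith)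
        (by rw [t23]; ring) (by rw [sw, t22]; ring)
      rw [sw, neg_neg] at f0 f1 f2
      linarith

end Pool.Agent.Helper63.ML
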