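import Pool.Agent.Helper63.ML.RealMain

/-!
# The real inequality: the regime `σ > 1`
-/

set_option autoImplicit false
namespace Pool.Agent.Helper63.ML

theorem sigma_small {x y z s : ℝ} (hs : s = x + y + z - 1) (hs0 : 0 ≤ s)
    (hk : (y + z) * (1 + x) ≤ 1) (c : |3 * x - (x + y + z)| < s) : s ≤ 1214 / 10000 := by
  rw [abs_lt] at c
  obtain ⟨e, he⟩ : ∃ e, e = x - (1 + s) / 3 := ⟨_, rfl⟩
  have ex : x = (1 + s) / 3 + e := by rw [he]; ring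
  have eyz : y + z = 2 * (1 + s) / 3 - e := by linarith
  rw [eyz, ex] at hk
  have c1 : 3 * e < s := by linarith [c.2]
  have c2 : -s < 3 * e := by linarith [c.1]
  have h1 : (s / 3 - e) * (s / 3 + e) ≥ 0 := mul_nonneg (by linarith) (by linarith)
  by_contra hcon
  push Not at hcon
  -- lower bound of the left side
  have h2 : 0 ≤ (s / 3 - e) * (2 - s) ∨ 2 < s := by
    rcases le_or_gt s 2 with h | h
    · left; exact mul_nonneg (by linarith) (by linarith)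
    · right; exact h
  rcases h2 with h2 | h2
  · nlinarith
  · nlinarith

/-- Regime two: `σ > 1`. -/
theorem regime2 {h0 h1 h2 a0 a1 a2 V : ℝ} (hσ : 1 ≤ h0 + h1 + h2)
    (hV2 : 1 + (h0 + h1 + h2) ≤ V)
    (hf : 8 * V < 9 + 6 * (h0 + h1 + h2) + 3 * (h0 + h1 + h2) ^ 2 - 6 * (h0 ^ 2 + h1 ^ 2 + h2 ^ 2))
    (hk : (h1 + h2) * (1 + h0) ≤ 1 ∨ (h0 + h2) * (1 + h1) ≤ 1 ∨ (h0 + h1) * (1 + h2) ≤ 1)
    (ha0 : h0 ≤ a0) (ha0' : a0 ≤ 1) (ha1 : h1 ≤ a1) (ha1' : a1 ≤ 1) (ha2 : h2 ≤ a2)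
    (ha2' : a2 ≤ 1) (hn0 : 0 ≤ h0) (hn1 : 0 ≤ h1) (hn2 : 0 ≤ h2) :
    (1 / 6 ≤ h0 ∧ h0 ≤ 1 / 2) ∧ (1 / 6 ≤ h1 ∧ h1 ≤ 1 / 2) ∧ (1 / 6 ≤ h2 ∧ h2 ≤ 1 / 2) ∧
    V - 1 - (h0 + h1 + h2) ≤ 1 / 100 ∧
    (Tot (1 / 5) h0 h1 h2 a0 a1 a2 (1 + h0 - a0) (1 + h1 - a1) (1 + h2 - a2)
        (V - 1 - (h0 + h1 + h2)) ^ 2 ≤ 8 * (1 + 3 * (1 / 5) ^ 2) * V ∨
      Tot (1 / 5) h0 h1 h2 (1 + h0 - a0) (1 + h1 - a1) (1 + h2 - a2) a0 a1 a2
        (V - 1 - (h0 + h1 + h2)) ^ 2 ≤ 8 * (1 + 3 * (1 / 5) ^ 2) * V) := by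
  obtain ⟨s, hs⟩ : ∃ s, s = h0 + h1 + h2 - 1 := ⟨_, rfl⟩
  obtain ⟨d, hd⟩ : ∃ d, d = V - 1 - (h0 + h1 + h2) := ⟨_, rfl⟩
  have hd0 : 0 ≤ d := by linarith
  have hs0 : 0 ≤ s := by linarith
  rw [← hd]
  have hfd : 8 * d + (6 * (h0 ^ 2 + h1 ^ 2 + h2 ^ 2) - 2 * (h0 + h1 + h2) ^ 2) < s ^ 2 := by
    have e : s ^ 2 = 1 - 2 * (h0 + h1 + h2) + (h0 + h1 + h2) ^ 2 := by rw [hs]; ring
    rw [e, hd]
    linarith
  have sp0 := spread (x := h0) (y := h1) (z := h2)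
  have sp1 : (3 * h1 - (h0 + h1 + h2)) ^ 2 ≤
      6 * (h0 ^ 2 + h1 ^ 2 + h2 ^ 2) - 2 * (h0 + h1 + h2) ^ 2 := by
    have := spread (x := h1) (y := h0) (z := h2)
    linarith [this]
  have sp2 : (3 * h2 - (h0 + h1 + h2)) ^ 2 ≤
      6 * (h0 ^ 2 + h1 ^ 2 + h2 ^ 2) - 2 * (h0 + h1 + h2) ^ 2 := by
    have := spread (x := h2) (y := h1) (z := h0)
    linarith [this]
  have S0 : 0 ≤ 6 * (h0 ^ 2 + h1 ^ 2 + h2 ^ 2) - 2 * (h0 + h1 + h2) ^ 2 :=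
    (sq_nonneg _).trans sp0
  have c0 := abs_lt_of_sq_lt_sq (lt_of_le_of_lt sp0 (by linarith : _ < s ^ 2)) hs0
  have c1 := abs_lt_of_sq_lt_sq (lt_of_le_of_lt sp1 (by linarith : _ < s ^ 2)) hs0
  have c2 := abs_lt_of_sq_lt_sq (lt_of_le_of_lt sp2 (by linarith : _ < s ^ 2)) hs0
  -- `s` is small
  have hs1 : s ≤ 1214 / 10000 := by
    rcases hk with h | h | h
    · exact sigma_small (x := h0) (y := h1) (z := h2) hs hs0 h c0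
    · refine sigma_small (x := h1) (y := h0) (z := h2) (by rw [hs]; ring) hs0 h ?_
      rw [show h1 + h0 + h2 = h0 + h1 + h2 by ring]
      exact c1
    · refine sigma_small (x := h2) (y := h0) (z := h1) (by rw [hs]; ring) hs0 h ?_
      rw [show h2 + h0 + h1 = h0 + h1 + h2 by ring]
      exact c2
  rw [abs_lt] at c0 c1 c2
  have l0 : 1 / 3 ≤ h0 := by linarith [c0.1]
  have l1 : 1 / 3 ≤ h1 := by linarith [c1.1]
  have l2 : 1 / 3 ≤ h2 := by linarith [c2.1]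
  have u0 : h0 ≤ 1 / 2 := by linarith [c0.2]
  have u1 : h1 ≤ 1 / 2 := by linarith [c1.2]
  have u2 : h2 ≤ 1 / 2 := by linarith [c2.2]
  have hss : s ^ 2 ≤ (1214 / 10000) ^ 2 := pow_le_pow_left₀ hs0 hs1 2
  have hd1 : d ≤ 1 / 100 := by linarith
  refine ⟨⟨by linarith, by linarith⟩, ⟨by linarith, by linarith⟩, ⟨by linarith, by linarith⟩,
    hd1, ?_⟩
  have hinv : 1 / h0 + 1 / h1 + 1 / h2 ≤ 9 := by
    have i : ∀ h : ℝ, 1 / 3 ≤ h → 1 / h ≤ 3 := by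
      intro h hh
      rw [div_le_iff₀ (by linarith)]; linarith
    linarith [i h0 l0, i h1 l1, i h2 l2]
  have hC : (1 + 1 / 5) * d * (1 / h0 + 1 / h1 + 1 / h2) ≤ 135 / 100 * s ^ 2 := by
    calc (1 + 1 / 5) * d * (1 / h0 + 1 / h1 + 1 / h2) ≤ (1 + 1 / 5) * d * 9 := by
          apply mul_le_mul_of_nonneg_left hinv (by linarith)
      _ ≤ 135 / 100 * s ^ 2 := by linarith
  have hC0 : 0 ≤ (1 + 1 / 5) * d * (1 / h0 + 1 / h1 + 1 / h2) := by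
    have : 0 ≤ 1 / h0 + 1 / h1 + 1 / h2 := by positivity
    apply mul_nonneg (by linarith) this
  obtain ⟨t0, t00, t01, t02, t03⟩ := exists_t (by linarith : h0 < 1) ha0 ha0'
  obtain ⟨t1, t10, t11, t12, t13⟩ := exists_t (by linarith : h1 < 1) ha1 ha1'
  obtain ⟨t2, t20, t21, t22, t23⟩ := exists_t (by linarith : h2 < 1) ha2 ha2'
  have key := comb' (P0 := (1 - h0) / 5) (P1 := (1 - h1) / 5) (P2 := (1 - h2) / 5)
    (N0 := (3 * h0 - 1) / 5) (N1 := (3 * h1 - 1) / 5) (N2 := (3 * h2 - 1) / 5)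
    (B := 2 / 15 + 3 / 5 * s) t00 t01 t10 t11 t20 t21
    (by linarith) (by linarith) (by linarith) (by linarith) (by linarith) (by linarith)
    (by linarith) (by linarith) (by linarith)
  have fin : ∀ T : ℝ, 0 ≤ T → T ≤ 4 + s + 2 / 15 + 3 / 5 * s + 135 / 100 * s ^ 2 →
      T ^ 2 ≤ 8 * (1 + 3 * (1 / 5) ^ 2) * V := by
    intro T hT0 hT
    have k1 : s ^ 2 ≤ 1214 / 10000 * s := by
      rw [sq]; exact mul_le_mul_of_nonneg_right hs1 hs0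
    have k2 : T ≤ 4 + 2 / 15 + 177 / 100 * s := by linarith
    have h1 : T ^ 2 ≤ (4 + 2 / 15 + 177 / 100 * s) ^ 2 := pow_le_pow_left₀ hT0 k2 2
    refine h1.trans ?_
    have h5 : (8 : ℝ) * (1 + 3 * (1 / 5) ^ 2) = 224 / 25 := by norm_num
    rw [h5]
    have h7 : 224 / 25 * (2 + s) ≤ 224 / 25 * V := by
      have : 2 + s ≤ V := by linarith
      linarith
    nlinarith
  have hφ : ∀ h a t : ℝ, 1 / 3 ≤ h → h ≤ 1 / 2 → -1 ≤ t → t ≤ 1 →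
      a = (1 + h) / 2 + t * (1 - h) / 2 → 1 + h - a = (1 + h) / 2 - t * (1 - h) / 2 →
      Up (1 / 5) h a + Vp (1 / 5) h a (1 + h - a) ≤ h + (1 - h) / 5 * max (-t) 0 +
        (3 * h - 1) / 5 * max t 0 := by
    intro h a t g1 g2 g3 g4 g5 g6
    have := phi_le (ε := 1 / 5) (h := h) (a := a) (b := 1 + h - a) (t := t)
      (N := (3 * h - 1) / 5) (by norm_num) (by linarith) (by linarith)
      (by linarith) (by linarith) (by linarith) g3 g4 g5 g6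
    have e : 1 / 5 * (1 - h) * max (-t) 0 = (1 - h) / 5 * max (-t) 0 := by ring
    rw [e] at this
    exact this
  have V0 : ∀ h a b : ℝ, 0 ≤ Vp (1 / 5) h a b := fun h a b =>
    (by norm_num : (0 : ℝ) ≤ 1 / 5).trans (le_max_right _ _)
  rcases key with hk | hk
  · left
    apply fin
    · unfold Tot
      have := Up_nonneg (1 / 5) h0 a0
      have := Up_nonneg (1 / 5) h1 a1
      have := Up_nonneg (1 / 5) h2 a2
      have := V0 h0 a0 (1 + h0 - a0)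
      have := V0 h1 a1 (1 + h1 - a1)
      have := V0 h2 a2 (1 + h2 - a2)
      linarith
    · unfold Tot
      have f0 := hφ h0 a0 t0 l0 u0 t00 t01 t02 t03
      have f1 := hφ h1 a1 t1 l1 u1 t10 t11 t12 t13
      have f2 := hφ h2 a2 t2 l2 u2 t20 t21 t22 t23
      linarith
  · right
    apply fin
    · unfold Tot
      have := Up_nonneg (1 / 5) h0 (1 + h0 - a0)
      have := Up_nonneg (1 / 5) h1 (1 + h1 - a1)
      have := Up_nonneg (1 / 5) h2 (1 + h2 - a2)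
      have := V0 h0 (1 + h0 - a0) a0
      have := V0 h1 (1 + h1 - a1) a1
      have := V0 h2 (1 + h2 - a2) a2
      linarith
    · unfold Tot
      have sw : ∀ h a : ℝ, 1 + h - (1 + h - a) = a := fun h a => by ring
      have f0 := hφ h0 (1 + h0 - a0) (-t0) l0 u0 (by linarith) (by linarith)
        (by rw [t03]; ring) (by rw [sw, t02]; ring)
      have f1 := hφ h1 (1 + h1 - a1) (-t1) l1 u1 (by linarith) (by linarith)
        (by rw [t13]; ring) (by rw [sw, t12]; ring)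
      have f2 := hφ h2 (1 + h2 - a2) (-t2) l2 u2 (by linarith) (by linarith)
        (by rw [t23]; ring) (by rw [sw, t22]; ring)
      rw [sw, neg_neg] at f0 f1 f2
      linarith

/-- The real inequality. -/
theorem real_main {h0 h1 h2 a0 a1 a2 V : ℝ} 
    (hV1 : 184 / 100 ≤ V) (hV2 : 1 + (h0 + h1 + h2) ≤ V)
    (hf : 8 * V < 9 + 6 * (h0 + h1 + h2) + 3 * (h0 + h1 + h2) ^ 2 - 6 * (h0 ^ 2 + h1 ^ 2 + h2 ^ 2))
    (hk : 1 < h0 + h1 + h2 →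
      (h1 + h2) * (1 + h0) ≤ 1 ∨ (h0 + h2) * (1 + h1) ≤ 1 ∨ (h0 + h1) * (1 + h2) ≤ 1)
    (ha0 : h0 ≤ a0) (ha0' : a0 ≤ 1) (ha1 : h1 ≤ a1) (ha1' : a1 ≤ 1) (ha2 : h2 ≤ a2)
    (ha2' : a2 ≤ 1) (hn0 : 0 ≤ h0) (hn1 : 0 ≤ h1) (hn2 : 0 ≤ h2) :
    (1 / 6 ≤ h0 ∧ h0 ≤ 1 / 2) ∧ (1 / 6 ≤ h1 ∧ h1 ≤ 1 / 2) ∧ (1 / 6 ≤ h2 ∧ h2 ≤ 1 / 2) ∧
    V - 1 - (h0 + h1 + h2) ≤ 1 / 100 ∧ ∃ ε : ℝ, 0 ≤ ε ∧ ε ≤ 1 / 5 ∧
    (Tot ε h0 h1 h2 a0 a1 a2 (1 + h0 - a0) (1 + h1 - a1) (1 + h2 - a2)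
        (V - 1 - (h0 + h1 + h2)) ^ 2 ≤ 8 * (1 + 3 * ε ^ 2) * V ∨
      Tot ε h0 h1 h2 (1 + h0 - a0) (1 + h1 - a1) (1 + h2 - a2) a0 a1 a2
        (V - 1 - (h0 + h1 + h2)) ^ 2 ≤ 8 * (1 + 3 * ε ^ 2) * V) := by
  rcases le_or_gt (h0 + h1 + h2) 1 with h | h
  · obtain ⟨q1, q2, q3, q4, q5⟩ := regime1 h hV1 hV2 hf ha0 ha0' ha1 ha1' ha2 ha2' hn0 hn1 hn2
    exact ⟨q1, q2, q3, q4, 1 / 6, by norm_num, by norm_num, q5⟩
  · obtain ⟨q1, q2, q3, q4, q5⟩ := regime2 h.le hV2 hf (hk h) ha0 ha0' ha1 ha1' ha2 ha2' hn0 hn1 hn2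
    exact ⟨q1, q2, q3, q4, 1 / 5, by norm_num, by norm_num, q5⟩

end Pool.Agent.Helper63.ML
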